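import Pool.Agent.R948.ZPe

/-!
# The transcendence degree in towers; points of small transcendence degree on a subvariety
-/

set_option autoImplicit false
set_option linter.unusedSectionVars false
set_option linter.style.haveILetI false

namespace Pool.Agent.R781.FD

open MvPolynomial Pool.Agent.R948 Pool.Agent.R948.ZP

section

variable {k L E : Type} [Field k] [Field L] [Field E] [Algebra k L] [Algebra L E] [Algebra k E]
  [IsScalarTower k L E]

theorem alg_transfer (A₁ : Subalgebra k L) (B₁ : Subalgebra k E)
    (h : ∀ x ∈ A₁, algebraMap L E x ∈ B₁) {a : L} (ha : IsAlgebraic A₁ a) :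
    IsAlgebraic B₁ (algebraMap L E a) := by
  let f : A₁ →+* B₁ := ((algebraMap L E).comp A₁.val.toRingHom).codRestrict B₁
    (fun x => h x x.2)
  have hf : Function.Injective f := by
    intro x y hxy
    have h1 := congrArg Subtype.val hxy
    exact Subtype.ext ((algebraMap L E).injective h1)
  exact ha.ringHom_of_comp_eq f (algebraMap L E) hf rfl

variable {ι κ : Type} [Fintype ι] [Fintype κ]

/-- upper bound for the transcendence degree in a tower -/
theorem td_tower (u : ι → E) (w : κ → L)
    (hw : ∀ a : L, IsAlgebraic (Algebra.adjoin k (Set.range w)) a) :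
    td k (Sum.elim u (fun j => algebraMap L E (w j))) ≤ td L u + td k w := by
  classical
  obtain ⟨S, hS, -, hS2⟩ := exists_td L u
  obtain ⟨T, hT, -, hT2⟩ := exists_td k w
  let v : S ⊕ T → E := Sum.elim (fun i => u i) (fun j => algebraMap L E (w j))
  have h1 : td k v ≤ td L u + td k w := by
    refine (td_le_card k v).trans ?_
    rw [Fintype.card_sum, Fintype.card_coe, Fintype.card_coe, hS, hT]
  refine (td_le_of_alg k fun s => ?_).trans h1
  have halgL : ∀ a : L, IsAlgebraic (Algebra.adjoin k (Set.range v)) (algebraMap L E a) := by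
    intro a
    have h2 : IsAlgebraic (Algebra.adjoin k (w '' T)) a := by
      refine (hw a).adjoin_of_forall_isAlgebraic ?_
      rintro x ⟨⟨i, rfl⟩, -⟩
      exact hT2 i
    refine alg_transfer _ _ (fun x hx => ?_) h2
    have h3 : Algebra.adjoin k (w '' T) ≤
        (Algebra.adjoin k (Set.range v)).comap (IsScalarTower.toAlgHom k L E) := by
      refine Algebra.adjoin_le ?_
      rintro _ ⟨j, hj, rfl⟩
      exact Algebra.subset_adjoin ⟨Sum.inr ⟨j, hj⟩, rfl⟩
    exact h3 hx
  rcases s with i | j
  · let s : Set E := Set.range (algebraMap L E) ∪ u '' S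
    have h2 : IsAlgebraic (Algebra.adjoin k s) (u i) := by
      let f : Algebra.adjoin L (u '' S) →+* Algebra.adjoin k s :=
        (Algebra.adjoin L (u '' S)).val.toRingHom.codRestrict (Algebra.adjoin k s) (fun x => by
          have h3 : (Algebra.adjoin L (u '' S)).toSubring ≤ (Algebra.adjoin k s).toSubring := by
            intro y hy
            have hy' : y ∈ Algebra.adjoin L (u '' S) := hy
            change y ∈ Algebra.adjoin k s
            clear hy
            induction hy' using Algebra.adjoin_induction with
            | mem x hx => exact Algebra.subset_adjoin (Or.inr hx)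
            | algebraMap r => exact Algebra.subset_adjoin (Or.inl ⟨r, rfl⟩)
            | add x y hx hy h1 h2 => exact add_mem h1 h2
            | mul x y hx hy h1 h2 => exact mul_mem h1 h2
          exact h3 x.2)
      have hf : Function.Injective f := by
        intro x y hxy
        have h4 : ((f x : Algebra.adjoin k s) : E) = (f y : Algebra.adjoin k s) := by rw [hxy]
        exact Subtype.ext h4
      exact (hS2 i).ringHom_of_comp_eq f (RingHom.id E) hf rfl
    refine h2.adjoin_of_forall_isAlgebraic ?_
    rintro x ⟨hx, -⟩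
    rcases hx with ⟨a, rfl⟩ | ⟨j, hj, rfl⟩
    · exact halgL a
    · exact alg_of_range (F := k) v (Sum.inl ⟨j, hj⟩)
  · exact halgL (w j)

end

/-! ### Base change without algebraic closedness -/

section

variable {k K : Type} [Field k] [Field K] [Algebra k K] {ι : Type}

theorem comp_mul_map (e : Module.Basis.ofVectorSpaceIndex k K) (g : MvPolynomial ι K)
    (h : MvPolynomial ι k) :
    comp e (g * MvPolynomial.map (algebraMap k K) h) = comp e g * h := by
  classical
  ext m
  rw [coeff_comp, coeff_mul, coeff_mul, map_sum]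
  refine Finset.sum_congr rfl fun x _ => ?_
  rw [coeff_map, coeff_comp, mul_comm, ← Algebra.smul_def, map_smul, smul_eq_mul, mul_comm]

theorem comp_sum (e : Module.Basis.ofVectorSpaceIndex k K) {α : Type} (s : Finset α)
    (f : α → MvPolynomial ι K) : comp e (∑ a ∈ s, f a) = ∑ a ∈ s, comp e (f a) := by
  ext m
  rw [coeff_comp, coeff_sum, map_sum, coeff_sum]
  exact Finset.sum_congr rfl fun a _ => (coeff_comp e (f a) m).symm

theorem comp_mem (P : Ideal (MvPolynomial ι k)) {f : MvPolynomial ι K}
    (hf : f ∈ P.map (MvPolynomial.map (algebraMap k K))) :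
    ∀ e : Module.Basis.ofVectorSpaceIndex k K, comp e f ∈ P := by
  refine Submodule.span_induction (p := fun f _ =>
    ∀ e : Module.Basis.ofVectorSpaceIndex k K, comp e f ∈ P) ?_ ?_ ?_ ?_ hf
  · rintro _ ⟨g, hg, rfl⟩ e
    have h1 := comp_mul_map e (1 : MvPolynomial ι K) g
    rw [one_mul] at h1
    rw [h1]
    exact P.mul_mem_left _ hg
  · intro e
    have h1 : comp e (0 : MvPolynomial ι K) = 0 := by
      ext m
      rw [coeff_comp, coeff_zero, coeff_zero, map_zero]
    rw [h1]
    exact P.zero_mem
  · intro a b _ _ ha hb e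
    rw [comp_add]
    exact P.add_mem (ha e) (hb e)
  · intro a b _ hb e
    obtain ⟨F, hF⟩ := eq_sum_comp (k := k) b
    have h1 : a * b = ∑ e' ∈ F, (a * C (bas k K e')) *
        MvPolynomial.map (algebraMap k K) (comp e' b) := by
      conv_lhs => rw [hF]
      rw [Finset.mul_sum]
      exact Finset.sum_congr rfl fun e' _ => by rw [mul_assoc]
    rw [smul_eq_mul, h1, comp_sum]
    refine P.sum_mem fun e' _ => ?_
    rw [comp_mul_map]
    exact P.mul_mem_left _ (hb e')

variable [Fintype ι]

/-- the dimension does not get smaller under base change -/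
theorem tdP_le_map' (P : Ideal (MvPolynomial ι k)) [hP : P.IsPrime]
    (Q : Ideal (MvPolynomial ι K)) [Q.IsPrime]
    (hQ : Q = P.map (MvPolynomial.map (algebraMap k K))) : tdP P ≤ tdP Q := by
  classical
  obtain ⟨S, hS, hind, -⟩ := exists_td k (cp P)
  have h1 : AlgebraicIndependent K (fun i : S => cp Q i) := by
    rw [algebraicIndependent_iff]
    intro p hp
    have h2 : rename Subtype.val p ∈ Q := by
      rw [← aeval_cp_eq_zero, aeval_rename]
      exact hp
    rw [hQ] at h2
    have h3 : ∀ e, comp (k := k) e p = 0 := by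
      intro e
      have h4 := comp_mem P h2 e
      rw [comp_rename, ← aeval_cp_eq_zero, aeval_rename] at h4
      exact algebraicIndependent_iff.1 hind _ h4
    obtain ⟨E, hE⟩ := eq_sum_comp (k := k) p
    rw [hE]
    refine Finset.sum_eq_zero fun e _ => ?_
    rw [h3 e, map_zero, mul_zero]
  rw [tdP, ← hS]
  exact le_td K h1

/-- the dimension does not get larger under base change -/
theorem tdP_map_le (P : Ideal (MvPolynomial ι k)) [hP : P.IsPrime]
    (Q : Ideal (MvPolynomial ι K)) [Q.IsPrime]
    (hQ : P.map (MvPolynomial.map (algebraMap k K)) ≤ Q)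
    (hinj : ∀ g : MvPolynomial ι k, MvPolynomial.map (algebraMap k K) g ∈ Q → g ∈ P) :
    tdP Q ≤ tdP P := by
  classical
  obtain ⟨S, hS, -, hS2⟩ := exists_td k (cp P)
  let φ : (MvPolynomial ι k ⧸ P) →+* (MvPolynomial ι K ⧸ Q) :=
    Ideal.quotientMap Q (MvPolynomial.map (algebraMap k K)) (Ideal.map_le_iff_le_comap.1 hQ)
  have hφ : Function.Injective φ := Ideal.quotientMap_injective' (fun g hg => hinj g hg)
  have hφX : ∀ i, φ (cp P i) = cp Q i := by
    intro i
    change φ (Ideal.Quotient.mk P (X i)) = Ideal.Quotient.mk Q (X i)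
    rw [Ideal.quotientMap_mk, map_X]
  have hφC : ∀ c : k, φ (algebraMap k _ c) = algebraMap K _ (algebraMap k K c) := by
    intro c
    change φ (Ideal.Quotient.mk P (C c)) = Ideal.Quotient.mk Q (C (algebraMap k K c))
    rw [Ideal.quotientMap_mk, map_C]
  let v : S → MvPolynomial ι K ⧸ Q := fun i => cp Q i
  have h1 : td K v ≤ tdP P := by
    refine (td_le_card K v).trans ?_
    rw [Fintype.card_coe, hS]
    exact le_rfl
  refine le_trans (td_le_of_alg K fun i => ?_) h1
  have h2 := hS2 i
  have hmem : ∀ x ∈ Algebra.adjoin k (cp P '' S), φ x ∈ Algebra.adjoin K (Set.range v) := by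
    intro x hx
    induction hx using Algebra.adjoin_induction with
    | mem x hx =>
      obtain ⟨j, hj, rfl⟩ := hx
      rw [hφX]
      exact Algebra.subset_adjoin ⟨⟨j, hj⟩, rfl⟩
    | algebraMap r =>
      rw [hφC]
      exact Subalgebra.algebraMap_mem _ _
    | add x y hx hy h1 h2 => rw [map_add]; exact add_mem h1 h2
    | mul x y hx hy h1 h2 => rw [map_mul]; exact mul_mem h1 h2
  let f : Algebra.adjoin k (cp P '' S) →+* Algebra.adjoin K (Set.range v) :=
    (φ.comp (Algebra.adjoin k (cp P '' S)).val.toRingHom).codRestrict _ (fun x => hmem x x.2)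
  have hf : Function.Injective f := by
    intro x y hxy
    have h4 : ((f x : Algebra.adjoin K (Set.range v)) : MvPolynomial ι K ⧸ Q) =
        (f y : Algebra.adjoin K (Set.range v)) := by rw [hxy]
    exact Subtype.ext (hφ h4)
  have h5 := h2.ringHom_of_comp_eq f φ hf rfl
  rw [hφX] at h5
  exact h5

end

end Pool.Agent.R781.FD
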