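import Pool.Agent.R781.FD.A

/-!
# The points of small transcendence degree on a subvariety are not dense
-/

set_option autoImplicit false
set_option linter.unusedSectionVars false
set_option linter.style.haveILetI false

namespace Pool.Agent.R781.FD

open MvPolynomial Pool.Agent.R948 Pool.Agent.R948.ZP

section

variable {k K : Type} [Field k] [Field K] [Algebra k K] {ι κ : Type} [Fintype ι] [Fintype κ]

theorem pt_zero (P : Ideal (MvPolynomial ι K)) [P.IsPrime]
    (y : ι → FractionRing (MvPolynomial ι K ⧸ P))
    (hy : y = fun i => algebraMap _ _ (cp P i)) (f : MvPolynomial ι K) :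
    aeval y f = 0 ↔ f ∈ P := by
  have h1 := MvPolynomial.aeval_algebraMap_apply (FractionRing (MvPolynomial ι K ⧸ P)) (cp P) f
  rw [hy]
  refine Iff.trans ?_ (aeval_cp_eq_zero P f)
  rw [← map_eq_zero_iff _ (IsFractionRing.injective (MvPolynomial ι K ⧸ P)
    (FractionRing (MvPolynomial ι K ⧸ P))), ← h1]
  rfl

/-- the transcendence degree of a point of a prime ideal -/
theorem td_pt (P : Ideal (MvPolynomial ι K)) [P.IsPrime] [(P.comap
    (MvPolynomial.map (algebraMap k K))).IsPrime]
    (y : ι → FractionRing (MvPolynomial ι K ⧸ P))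
    (hy : y = fun i => algebraMap _ _ (cp P i)) :
    td k y = tdP (P.comap (MvPolynomial.map (algebraMap k K))) := by
  have h6 : ∀ f : MvPolynomial ι k, aeval y f = aeval y (MvPolynomial.map (algebraMap k K) f) := by
    intro f
    rw [aeval_map_algebraMap]
  refine le_antisymm (td_le_tdP _ _ fun f hf => ?_) (tdP_le_td _ _ fun f hf => ?_)
  · rw [h6, pt_zero P y hy]
    exact hf
  · rw [h6, pt_zero P y hy] at hf
    exact hf

/-- evaluation of iterated polynomials -/
noncomputable def ev {E : Type} [Field E] [Algebra k E] {S T : Type} (y : T → E) (c : S → E) :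
    MvPolynomial S (MvPolynomial T k) →+* E :=
  eval₂Hom (aeval y : MvPolynomial T k →ₐ[k] E).toRingHom c

theorem ev_sum {E : Type} [Field E] [Algebra k E] {S T : Type} (y : T → E) (c : S → E)
    (p : MvPolynomial (S ⊕ T) k) : ev y c (sumAlgEquiv k S T p) = aeval (Sum.elim c y) p := by
  induction p using MvPolynomial.induction_on with
  | C a => rw [sumAlgEquiv_C_inl]; simp [ev]
  | add p q hp hq => rw [map_add, map_add, map_add, hp, hq]
  | mul_X p j hp =>
    rw [map_mul, map_mul, map_mul, hp]
    congr 1
    rcases j with j | j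
    · rw [sumAlgEquiv_X_inl]; simp [ev]
    · rw [sumAlgEquiv_X_inr]; simp [ev]

/-- the relations on the generic point -/
theorem exists_rel {E : Type} [Field E] [Algebra k E] (y : ι → E) (c : κ → E) (T : Finset ι)
    (hT : AlgebraicIndependent k (fun i : T => y i)) (S : Finset κ)
    (hS : td k (Sum.elim y c) < S.card + T.card) :
    ∃ Q : MvPolynomial S (MvPolynomial T k), (∃ m, aeval (fun i : T => y i) (coeff m Q) ≠ 0) ∧
      ev (fun i : T => y i) (fun j : S => c j) Q = 0 := by
  classical
  by_contra hcon
  push Not at hcon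
  have h1 : AlgebraicIndependent k (Sum.elim (fun j : S => c j) (fun i : T => y i)) := by
    rw [algebraicIndependent_iff]
    intro p hp
    have h2 : ∀ m, coeff m (sumAlgEquiv k S T p) = 0 := by
      intro m
      by_contra hne
      have h3 : aeval (fun i : T => y i) (coeff m (sumAlgEquiv k S T p)) ≠ 0 := fun h =>
        hne (algebraicIndependent_iff.1 hT _ h)
      refine hcon _ ⟨m, h3⟩ ?_
      rw [ev_sum]
      exact hp
    have h3 : sumAlgEquiv k S T p = 0 := by
      ext1 m
      rw [h2 m, coeff_zero]
    exact (map_eq_zero_iff _ (sumAlgEquiv k S T).injective).1 h3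
  have h2 := card_le_td h1
  rw [Fintype.card_sum, Fintype.card_coe, Fintype.card_coe] at h2
  have h3 : td k (Sum.elim (fun j : S => c j) (fun i : T => y i)) ≤ td k (Sum.elim y c) := by
    refine td_le_of_alg k fun s => ?_
    rcases s with j | i
    · exact alg_of_range (F := k) (Sum.elim y c) (Sum.inr j.1)
    · exact alg_of_range (F := k) (Sum.elim y c) (Sum.inl i.1)
  omega

/-- the generators of a field, in this field -/
noncomputable def gens {E : Type} [Field E] [Algebra k E] {α : Type} (y : α → E) :
    α → IntermediateField.adjoin k (Set.range y) :=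
  fun i => ⟨y i, IntermediateField.subset_adjoin _ _ ⟨i, rfl⟩⟩

theorem gens_alg {E : Type} [Field E] [Algebra k E] {α : Type} (y : α → E)
    (a : IntermediateField.adjoin k (Set.range y)) :
    IsAlgebraic (Algebra.adjoin k (Set.range (gens (k := k) y))) a := by
  have h2 : Algebra.adjoin k (Set.range y) ≤ (Algebra.adjoin k (Set.range (gens (k := k) y))).map
      (IntermediateField.adjoin k (Set.range y)).val := by
    refine Algebra.adjoin_le ?_
    rintro _ ⟨i, rfl⟩
    exact ⟨gens y i, Algebra.subset_adjoin ⟨i, rfl⟩, rfl⟩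
  obtain ⟨r, hr, s, hs, h3⟩ := IntermediateField.mem_adjoin_iff_div.1 a.2
  obtain ⟨r', hr', rfl⟩ := h2 hr
  obtain ⟨s', hs', rfl⟩ := h2 hs
  have h4 : a = r' / s' := by
    apply Subtype.ext
    exact h3
  rw [h4, div_eq_mul_inv]
  exact (isAlgebraic_algebraMap (⟨r', hr'⟩ :
      Algebra.adjoin k (Set.range (gens (k := k) y)))).mul
    (IsAlgebraic.inv_iff.2 (isAlgebraic_algebraMap (⟨s', hs'⟩ :
      Algebra.adjoin k (Set.range (gens (k := k) y)))))

/-- the relations remain valid at a point -/
theorem td_le_of_rel {E : Type} [Field E] [Algebra k E] (y : ι → E) (c : κ → E) (T : Finset ι)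
    (N : ℕ) (h : ∀ S : Finset κ, N < S.card →
      ∃ Q : MvPolynomial S (MvPolynomial T k), (∃ m, aeval (fun i : T => y i) (coeff m Q) ≠ 0) ∧
      ev (fun i : T => y i) (fun j : S => c j) Q = 0) :
    td k (Sum.elim c y) ≤ N + td k y := by
  classical
  have h1 := td_tower (k := k) (L := IntermediateField.adjoin k (Set.range y)) (E := E) c
    (gens y) (gens_alg y)
  have h2 : (fun j => algebraMap (IntermediateField.adjoin k (Set.range y)) E (gens y j)) = y := rfl
  rw [h2] at h1
  have h3 : td k (gens (k := k) y) ≤ td k y := by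
    refine td_le_of_ker k fun f hf => ?_
    have h4 : algebraMap (IntermediateField.adjoin k (Set.range y)) E
        (aeval (gens (k := k) y) f) = 0 := by
      have h5 := MvPolynomial.aeval_algebraMap_apply E (gens (k := k) y) f
      rw [← h5]
      exact hf
    exact (map_eq_zero_iff _ (algebraMap _ E).injective).1 h4
  have h4 : td (IntermediateField.adjoin k (Set.range y)) c ≤ N := by
    by_contra hlt
    push Not at hlt
    obtain ⟨S, hS, hind, -⟩ := exists_td (IntermediateField.adjoin k (Set.range y)) c
    obtain ⟨Q, ⟨m, hm⟩, hQ⟩ := h S (by omega)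
    let g : MvPolynomial T k →ₐ[k] (IntermediateField.adjoin k (Set.range y)) :=
      aeval (fun i : T => gens y i)
    have hg : ∀ a, algebraMap _ E (g a) = aeval (fun i : T => y i) a := by
      intro a
      have h5 := MvPolynomial.aeval_algebraMap_apply E (fun i : T => gens (k := k) y i) a
      exact h5.symm
    have h5 : MvPolynomial.map g.toRingHom Q ≠ 0 := by
      intro h0
      apply hm
      have h6 : g (coeff m Q) = 0 := by
        have h7 := coeff_map g.toRingHom Q m
        rw [h0, coeff_zero] at h7
        exact h7.symm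
      rw [← hg, h6, map_zero]
    apply h5
    refine algebraicIndependent_iff.1 hind _ ?_
    rw [← hQ, aeval_def, eval₂_map]
    change eval₂ _ _ Q = eval₂ _ _ Q
    congr 1
    ext a
    · change algebraMap _ E (g (C a)) = aeval _ (C a)
      rw [hg]
    · change algebraMap _ E (g (X a)) = aeval _ (X a)
      rw [hg]
  omega

end

end Pool.Agent.R781.FD
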