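import Pool.Agent.R781.FD.B

/-!
# The points of small transcendence degree on a subvariety are not dense, the main lemma
-/

set_option autoImplicit false
set_option linter.unusedSectionVars false
set_option linter.style.haveILetI false

namespace Pool.Agent.R781.FD

open MvPolynomial Pool.Agent.R948 Pool.Agent.R948.ZP

section

variable {k K : Type} [Field k] [Field K] [Algebra k K] {ι κ : Type} [Fintype ι] [Fintype κ]

/-- the polynomial of an iterated polynomial with constants `c` -/
noncomputable def lft (c : κ → K) {S : Finset κ} {T : Finset ι} :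
    MvPolynomial S (MvPolynomial T k) →+* MvPolynomial ι K :=
  eval₂Hom ((MvPolynomial.map (algebraMap k K)).comp
    (rename (Subtype.val : T → ι) : MvPolynomial T k →ₐ[k] MvPolynomial ι k).toRingHom)
    (fun j : S => C (c j))

theorem aeval_lft {E : Type} [Field E] [Algebra K E] [Algebra k E] [IsScalarTower k K E]
    (c : κ → K) {S : Finset κ} {T : Finset ι} (y : ι → E)
    (Q : MvPolynomial S (MvPolynomial T k)) :
    aeval y (lft c Q) = ev (fun i : T => y i) (fun j : S => algebraMap K E (c j)) Q := by
  have h1 : ((aeval y : MvPolynomial ι K →ₐ[K] E).toRingHom).comp (lft c) =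
      ev (k := k) (fun i : T => y i) (fun j : S => algebraMap K E (c j)) := by
    refine MvPolynomial.ringHom_ext (fun a => ?_) (fun j => ?_)
    · change aeval y (lft c (C a)) = ev _ _ (C a)
      rw [lft, ev, eval₂Hom_C, eval₂Hom_C]
      change aeval y (MvPolynomial.map (algebraMap k K) (rename Subtype.val a)) =
        aeval (fun i : T => y i) a
      rw [aeval_map_algebraMap, aeval_rename]
      rfl
    · change aeval y (lft c (X j)) = ev _ _ (X j)
      rw [lft, ev, eval₂Hom_X', eval₂Hom_X', aeval_C]
  exact congrArg (fun f => f Q) h1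

theorem td_comm {E : Type} [Field E] [Algebra k E] (y : ι → E) (c : κ → E) :
    td k (Sum.elim y c) ≤ td k (Sum.elim c y) := by
  refine td_le_of_alg k fun s => ?_
  rcases s with i | j
  · exact alg_of_range (F := k) (Sum.elim c y) (Sum.inr i)
  · exact alg_of_range (F := k) (Sum.elim c y) (Sum.inl j)

theorem exists_bad [Infinite K] {X V : Set (ι → K)} (hX : IsCone X)
    (hV : Subvariety X V) [(cont k V).IsPrime] :
    ∃ g : MvPolynomial ι k, g ∉ cont k V ∧ ∀ A, Subvariety X A → A ⊆ V →
      ∀ [(cont k A).IsPrime], MvPolynomial.map (algebraMap k K) g ∉ van A →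
      tdP (cont k V) + vd A ≤ tdP (cont k A) + vd V := by
  classical
  haveI := hV.prime hX
  obtain ⟨Cs, hCf, hC⟩ := exists_coeffs (van V)
  haveI : Fintype Cs := hCf.fintype
  let c : Cs → K := Subtype.val
  have hCr : Cs ⊆ Set.range (algebraMap (IntermediateField.adjoin k (Set.range c)) K) := by
    intro a ha
    exact ⟨gens c ⟨a, ha⟩, rfl⟩
  have hP := hC (IntermediateField.adjoin k (Set.range c)) hCr
  haveI hPp : ((van V).comap (MvPolynomial.map
      (algebraMap (IntermediateField.adjoin k (Set.range c)) K))).IsPrime :=
    Ideal.comap_isPrime _ _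
  haveI hPk : ((van V).comap (MvPolynomial.map (algebraMap k K))).IsPrime :=
    Ideal.comap_isPrime _ _
  let E := FractionRing (MvPolynomial ι K ⧸ van V)
  obtain ⟨y, hy⟩ : ∃ y : ι → E, y = fun i => algebraMap _ _ (cp (van V) i) := ⟨_, rfl⟩
  have h1 : td (IntermediateField.adjoin k (Set.range c)) y ≤ vd V := by
    rw [vd_eq]
    have h2 := td_pt (k := IntermediateField.adjoin k (Set.range c)) (van V) y hy
    exact (le_of_eq h2).trans (tdP_le_map' _ _ hP.symm)
  obtain ⟨N, hN⟩ : ∃ N : ℕ, N = td k (Sum.elim y (fun j => algebraMap K E (c j))) := ⟨_, rfl⟩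
  have h2 : N ≤ vd V + td k c := by
    have h3 := td_tower (k := k) (L := IntermediateField.adjoin k (Set.range c)) (E := E) y
      (gens c) (gens_alg c)
    have h4 : td k (gens (k := k) c) ≤ td k c := by
      refine td_le_of_ker k fun f hf => ?_
      have h5 := MvPolynomial.aeval_algebraMap_apply K (gens (k := k) c) f
      have h6 : algebraMap (IntermediateField.adjoin k (Set.range c)) K
          (aeval (gens (k := k) c) f) = 0 := by
        rw [← h5]
        exact hf
      exact (map_eq_zero_iff _ (algebraMap _ K).injective).1 h6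
    have h5 : (fun j => algebraMap (IntermediateField.adjoin k (Set.range c)) E (gens c j)) =
        fun j => algebraMap K E (c j) := by
      funext j
      rfl
    rw [h5] at h3
    omega
  obtain ⟨T, hT, hTi, -⟩ := exists_td k y
  have hTN : T.card ≤ N := by
    rw [hT, hN]
    exact td_le_of_alg k fun i =>
      alg_of_range (F := k) (Sum.elim y (fun j => algebraMap K E (c j))) (Sum.inl i)
  have hrel := fun (S : Finset Cs) (hS : N < S.card + T.card) =>
    exists_rel y (fun j => algebraMap K E (c j)) T hTi S (by rw [← hN]; exact hS)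
  choose Q hQ hQ2 using hrel
  choose m hm using hQ
  let g : Finset Cs → MvPolynomial ι k := fun S =>
    if h : N < S.card + T.card then rename Subtype.val (coeff (m S h) (Q S h)) else 1
  have hg : ∀ S, g S ∉ cont k V := by
    intro S
    by_cases h : N < S.card + T.card
    · have h3 : g S = rename Subtype.val (coeff (m S h) (Q S h)) := dif_pos h
      rw [h3]
      intro h4
      have h5 : MvPolynomial.map (algebraMap k K) (rename Subtype.val (coeff (m S h) (Q S h))) ∈
        van V := h4
      rw [← pt_zero (van V) y hy, aeval_map_algebraMap, aeval_rename] at h5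
      exact hm S h h5
    · have h3 : g S = 1 := dif_neg h
      rw [h3]
      exact fun h4 => Ideal.IsPrime.ne_top (I := cont k V) inferInstance
        ((Ideal.eq_top_iff_one _).2 h4)
  refine ⟨∏ S : Finset Cs, g S, ?_, ?_⟩
  · rw [Ideal.IsPrime.prod_mem_iff]
    push Not
    exact fun S _ => hg S
  · intro A hA hAV _ hgz
    haveI := hA.prime hX
    haveI hPk' : ((van A).comap (MvPolynomial.map (algebraMap k K))).IsPrime :=
      Ideal.comap_isPrime _ _
    have hle : van V ≤ van A := van_anti hAV
    let E' := FractionRing (MvPolynomial ι K ⧸ van A)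
    obtain ⟨y', hy'⟩ : ∃ y' : ι → E', y' = fun i => algebraMap _ _ (cp (van A) i) :=
      ⟨_, rfl⟩
    have h3 : ∀ S, MvPolynomial.map (algebraMap k K) (g S) ∉ van A := by
      intro S hS
      apply hgz
      rw [map_prod]
      exact Ideal.prod_mem _ (Finset.mem_univ S) hS
    have h4 := td_le_of_rel (k := k) y' (fun j => algebraMap K E' (c j)) T (N - T.card) (by
      intro S hS
      have hS' : N < S.card + T.card := by omega
      refine ⟨Q S hS', ⟨m S hS', ?_⟩, ?_⟩
      · intro h5
        apply h3 S
        have h6 : g S = rename Subtype.val (coeff (m S hS') (Q S hS')) := dif_pos hS'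
        rw [h6, ← pt_zero (van A) y' hy', aeval_map_algebraMap, aeval_rename]
        exact h5
      · rw [← aeval_lft, pt_zero (van A) y' hy']
        apply hle
        rw [← pt_zero (van V) y hy, aeval_lft]
        exact hQ2 S hS')
    have h5 := td_add_le (F := k) (k := K) (K := E') y' c
    have h6 := td_comm (k := k) y' (fun j => algebraMap K E' (c j))
    have h7 : vd A ≤ td K y' := by
      rw [vd_eq]
      exact tdP_le_td _ _ fun f hf => (pt_zero _ y' hy' f).1 hf
    have h8 : td k y = tdP (cont k V) := td_pt (van V) y hy
    have h9 : td k y' = tdP (cont k A) := td_pt (van A) y' hy'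
    omega

end

end Pool.Agent.R781.FD
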