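import Pool.Agent.R781.FD.C
import Pool.Agent.R370.HS.F

/-!
# Fields of definition: the bad locus as a closed set, from `K` to `k`
-/

set_option autoImplicit false
set_option linter.unusedSectionVars false
set_option linter.style.haveILetI false

namespace Pool.Agent.R781.FD

open MvPolynomial Pool.Agent.R948 Pool.Agent.R948.ZP Pool.Agent.R370.HS

section

variable {k K : Type} [Field k] [Field K] [Algebra k K] {ι : Type} [Fintype ι]

/-- the closed subset of `X` given by one polynomial over `k` and its homogeneous components -/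
def hz (X : Set (ι → K)) (g : MvPolynomial ι k) : Set (ι → K) :=
  X ∩ zeros (Set.range fun n : ℕ =>
    homogeneousComponent n (MvPolynomial.map (algebraMap k K) g))

theorem hz_closed {X : Set (ι → K)} (hX : IsCone X) (g : MvPolynomial ι k) :
    Closed X (hz X g) := by
  classical
  refine ⟨fun x hx c hc => ⟨hX x hx.1 c hc, ?_⟩, _, rfl⟩
  intro f hf
  obtain ⟨n, rfl⟩ := hf
  change eval (c • x) (homogeneousComponent n (MvPolynomial.map (algebraMap k K) g)) = 0
  rw [eval_smul_of_hom (homogeneousComponent_isHomogeneous n _)]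
  rw [hx.2 _ ⟨n, rfl⟩, mul_zero]

theorem not_subset_hz {X V : Set (ι → K)} {g : MvPolynomial ι k} (hg : g ∉ cont k V) :
    ¬ V ⊆ hz X g := by
  intro h
  apply hg
  change MvPolynomial.map (algebraMap k K) g ∈ van V
  intro x hx
  rw [← sum_homogeneousComponent (MvPolynomial.map (algebraMap k K) g), map_sum]
  exact Finset.sum_eq_zero fun n _ => (h hx).2 _ ⟨n, rfl⟩

theorem subset_hz [Infinite K] {X A : Set (ι → K)} (hA : IsCone A) (hAX : A ⊆ X)
    {g : MvPolynomial ι k} (hg : g ∈ cont k A) : A ⊆ hz X g := by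
  intro x hx
  refine ⟨hAX hx, ?_⟩
  rintro _ ⟨n, rfl⟩
  exact van_comp hA hg n x hx

/-- the polynomials over `k` which are the coordinates of a polynomial over `K` -/
theorem exists_comp_notMem {I : Ideal (MvPolynomial ι k)} {f : MvPolynomial ι K}
    (hf : f ∉ I.map (MvPolynomial.map (algebraMap k K))) :
    ∃ e : Module.Basis.ofVectorSpaceIndex k K, comp e f ∉ I := by
  by_contra hcon
  push Not at hcon
  apply hf
  obtain ⟨E, hE⟩ := eq_sum_comp (k := k) f
  rw [hE]
  exact Ideal.sum_mem _ fun e _ => Ideal.mul_mem_left _ _ (Ideal.mem_map_of_mem _ (hcon e))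

end

section

variable {k K : Type} [Field k] [Field K] [Algebra k K] [IsAlgClosed k] [IsAlgClosed K]
  {ι : Type} [Fintype ι] {X : Set (ι → K)} {𝒮 : Set (Set (ι → K))} {h : Set (ι → K) → ℤ}

theorem vd_clo_eq (hX : QuasiProjective X) {A V : Set (ι → K)} (hA : Subvariety X A)
    (hV : Subvariety X V) (hVd : Def k V) (hAV : A ⊆ V) [(cont k A).IsPrime] :
    vd (clo k X A) = tdP (cont k A) := by
  haveI : Infinite K := IsAlgClosed.instInfinite
  haveI := (clo_sub hX hA hV hVd hAV).prime hX.cone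
  refine le_antisymm ?_ (vd_clo hX hA hV hVd hAV)
  rw [vd_eq]
  refine tdP_map_le (cont k A) (van (clo k X A)) (le_of_eq (van_clo hX hA hV hVd hAV).symm) ?_
  intro g hg
  exact van_anti (subset_clo hA.subset) hg

/-- **The bad locus.** Outside a proper closed subset the closures over `k` of the subvarieties of
`V` have large dimension. -/
theorem exists_bad_sub (hX : QuasiProjective X) {V T : Set (ι → K)} (hV : Subvariety X V)
    (hT : Subvariety X T) (hTd : Def k T) (hVT : V ⊆ T) :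
    ∃ W, Closed X W ∧ ¬ V ⊆ W ∧ ∀ A, Subvariety X A → A ⊆ V → ¬ A ⊆ W →
      vd (clo k X V) + vd A ≤ vd (clo k X A) + vd V := by
  haveI : Infinite K := IsAlgClosed.instInfinite
  haveI := cont_prime (k := k) hX.cone hV
  obtain ⟨g, hg, hg2⟩ := exists_bad (k := k) hX.cone hV
  refine ⟨hz X g, hz_closed hX.cone g, not_subset_hz hg, fun A hA hAV hAW => ?_⟩
  haveI := cont_prime (k := k) hX.cone hA
  rw [vd_clo_eq hX hV hT hTd hVT, vd_clo_eq hX hA hT hTd (hAV.trans hVT)]
  exact hg2 A hA hAV fun hcon => hAW (subset_hz (k := k) hA.closed.1 hA.subset hcon)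

/-- **The bad locus** for points. -/
theorem exists_bad_closed (hX : QuasiProjective X) {V T : Set (ι → K)} (hV : Subvariety X V)
    (hT : Subvariety X T) (hTd : Def k T) (hVT : V ⊆ T) :
    ∃ W, Closed X W ∧ ¬ V ⊆ W ∧ ∀ z ∈ V, z ∉ W →
      vd (clo k X V) + 1 ≤ vd (clo k X (line z)) + vd V := by
  haveI : Infinite K := IsAlgClosed.instInfinite
  obtain ⟨W, hW, hVW, hbad⟩ := exists_bad_sub (k := k) hX hV hT hTd hVT
  refine ⟨W, hW, hVW, fun z hz hzW => ?_⟩
  have h1 := hbad (line z) (line_sub hX.cone hX.zero (hV.subset hz))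
    (line_subset hV.closed.1 hz) fun hsub => hzW (hsub (mem_line z))
  rwa [vd_line hX.cone hX.zero (hV.subset hz)] at h1

/-- closed sets and subvarieties over `k` -/
theorem exists_k_closed (hX : QuasiProjective X) {V T W : Set (ι → K)} (hV : Subvariety X V)
    (hT : Subvariety X T) (hTd : Def k T) (hVT : V ⊆ T) (hW : Closed X W)
    (hVW : ¬ clo k X V ⊆ W) :
    ∃ W', Closed X W' ∧ ¬ V ⊆ W' ∧ ∀ A, Subvariety X A → Def k A → A ⊆ W → A ⊆ W' := by
  haveI : Infinite K := IsAlgClosed.instInfinite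
  have hc := clo_sub (k := k) hX hV hT hTd hVT
  have h1 : ¬ van W ≤ van (clo k X V) := fun h => hVW (Closed.le_of_van hc.subset hW h)
  obtain ⟨f, hf, hf2⟩ := Set.not_subset.1 h1
  have hf3 : f ∉ (cont k V).map (MvPolynomial.map (algebraMap k K)) := by
    rw [← van_clo hX hV hT hTd hVT]
    exact hf2
  obtain ⟨e, he⟩ := exists_comp_notMem hf3
  refine ⟨hz X (comp e f), hz_closed hX.cone _, not_subset_hz he, fun A hA hAd hAW => ?_⟩
  refine subset_hz (k := k) hA.closed.1 hA.subset ?_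
  refine comp_mem (cont k A) ?_ e
  have h2 : f ∈ van A := van_anti hAW hf
  rwa [← hAd] at h2

end

section Definitions

variable {K : Type} [Field K] {ι : Type} [Fintype ι]

/-- For every subvariety over `k` the union of the atypical special subvarieties is not dense. -/
def AtypicalNotDenseOver (k : Type) [Field k] [Algebra k K] (X : Set (ι → K))
    (𝒮 : Set (Set (ι → K))) (h : Set (ι → K) → ℤ) : Prop :=
  ∀ T ∈ 𝒮, ∀ V, Subvariety X V → Def k V → V ⊆ T →
    ∃ W, Closed X W ∧ ¬ V ⊆ W ∧ ∀ Z, AtypicalSpecial X 𝒮 h V Z → Z ⊆ W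

/-- Every subvariety over `k` has only finitely many maximal atypical special subvarieties. -/
def FinitelyManyMaximalOver (k : Type) [Field k] [Algebra k K] (X : Set (ι → K))
    (𝒮 : Set (Set (ι → K))) (h : Set (ι → K) → ℤ) : Prop :=
  ∀ T ∈ 𝒮, ∀ V, Subvariety X V → Def k V → V ⊆ T → (maxAtypical X 𝒮 h V).Finite

/-- Every subvariety over `k` has only finitely many optimal subvarieties. -/
def FinitelyManyOptimalOver (k : Type) [Field k] [Algebra k K] (X : Set (ι → K))
    (𝒮 : Set (Set (ι → K))) (h : Set (ι → K) → ℤ) : Prop :=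
  ∀ T ∈ 𝒮, ∀ V, Subvariety X V → Def k V → V ⊆ T → {A | OptimalH X 𝒮 h V A}.Finite

end Definitions

section

variable {k K : Type} [Field k] [Field K] [Algebra k K] [IsAlgClosed k] [IsAlgClosed K]
  {ι : Type} [Fintype ι] {X : Set (ι → K)} {𝒮 : Set (Set (ι → K))} {h : Set (ι → K) → ℤ}

/-- optimal subvarieties are defined over `k` -/
theorem optimalH_def (hX : QuasiProjective X) (h𝒮 : SpecialStructure X 𝒮)
    (hd : ∀ S ∈ 𝒮, Def k S) {V A : Set (ι → K)} (hV : Subvariety X V) (hVd : Def k V)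
    (hA : OptimalH X 𝒮 h V A) : clo k X A = A ∧ Def k A := by
  haveI : Infinite K := IsAlgClosed.instInfinite
  have key : clo k X A = A := by
    obtain ⟨hA1, hA2, hA3⟩ := hA
    have h1 := clo_sub (k := k) hX hA1 hV hVd hA2
    have h2 : A ⊆ clo k X A := subset_clo hA1.subset
    by_contra hne
    have h4 := hA3 _ h1 (Set.ssubset_iff_subset_ne.2 ⟨h2, Ne.symm hne⟩)
      (clo_subset hV.closed hVd (cont_anti hA2))
    have h3 := vd_mono hX.cone hA1 h1 h2
    rw [hdefect, hdefect, hull_clo h𝒮 hd hA1, dim_eq, dim_eq] at h4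
    omega
  refine ⟨key, ?_⟩
  have h1 := def_clo (k := k) hX hA.1 hV hVd hA.2.1
  rwa [key] at h1

/-- a subvariety of dimension zero is a point -/
theorem eq_line (hX : QuasiProjective X) {Z : Set (ι → K)} (hZ : Subvariety X Z)
    (hZ0 : dim Z = 0) {z : ι → K} (hz : z ∈ Z) : Z = line z := by
  haveI : Infinite K := IsAlgClosed.instInfinite
  have hl := line_sub hX.cone hX.zero (hZ.subset hz)
  refine (eq_of_vd hX.cone hl hZ (line_subset hZ.closed.1 hz) ?_).symm
  rw [vd_line hX.cone hX.zero (hZ.subset hz)]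
  rw [dim_eq] at hZ0
  omega

/-- the atypical points outside the bad locus lie on atypical subvarieties of the closure -/
theorem exists_maxBelow_clo [Uncountable K] (hX : QuasiProjective X) (h𝒮 : SpecialStructure X 𝒮)
    (hd : ∀ S ∈ 𝒮, Def k S) {V T : Set (ι → K)} (hV : Subvariety X V) (hT : T ∈ 𝒮)
    (hVT : V ⊆ T) {z : ι → K} (hz : z ∈ V)
    (hzd : vd (clo k X V) + 1 ≤ vd (clo k X (line z)) + vd V)
    (hat : hdefect 𝒮 h (line z) < hdefect 𝒮 h V) :
    ∃ B ∈ maxBelow X 𝒮 h (clo k X V) (hdefect 𝒮 h (clo k X V)), clo k X (line z) ⊆ B := by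
  haveI : Infinite K := IsAlgClosed.instInfinite
  have hT' := h𝒮.subvariety T hT
  have hTd := hd T hT
  have hl := line_sub hX.cone hX.zero (hV.subset hz)
  have hlV := line_subset hV.closed.1 hz
  refine exists_maxBelow hX (clo_sub hX hl hT' hTd (hlV.trans hVT)) ?_ ?_
  · exact clo_subset (clo_closed hX.cone hV.closed.1) (def_clo hX hV hT' hTd hVT)
      (cont_anti (hlV.trans (subset_clo hV.subset)))
  · have h1 : hull 𝒮 (clo k X (line z)) = hull 𝒮 (line z) := hull_clo h𝒮 hd hl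
    have h2 : hull 𝒮 (clo k X V) = hull 𝒮 V := hull_clo h𝒮 hd hV
    rw [hdefect, hdefect, h1, h2, dim_eq, dim_eq]
    rw [hdefect, hdefect, dim_eq, dim_eq, vd_line hX.cone hX.zero (hV.subset hz)] at hat
    push_cast at hat ⊢
    omega

theorem points_of_over [Uncountable K] (hX : QuasiProjective X) (h𝒮 : SpecialStructure X 𝒮)
    (hd : ∀ S ∈ 𝒮, Def k S) (hk : AtypicalNotDenseOver k X 𝒮 h) : PointsNotDense X 𝒮 h := by
  haveI : Infinite K := IsAlgClosed.instInfinite
  intro T hT V hV hVT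
  have hT' := h𝒮.subvariety T hT
  have hTd := hd T hT
  have hc := clo_sub (k := k) hX hV hT' hTd hVT
  have hcd := def_clo (k := k) hX hV hT' hTd hVT
  have hcT : clo k X V ⊆ T := clo_subset hT'.closed hTd (cont_anti hVT)
  obtain ⟨W₁, hW₁, hVW₁, hbad⟩ := exists_bad_closed (k := k) hX hV hT' hTd hVT
  obtain ⟨W₂, hW₂, hVW₂, hat⟩ := hk T hT (clo k X V) hc hcd hcT
  obtain ⟨W₃, hW₃, hVW₃, hA⟩ := exists_k_closed hX hV hT' hTd hVT hW₂ hVW₂
  refine ⟨W₁ ∪ W₃, hW₁.union hW₃, fun hsub => ?_, fun Z hZ hZ0 => ?_⟩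
  · rcases hV.irreducible W₁ W₃ hW₁ hW₃ hsub with h1 | h1
    · exact hVW₁ h1
    · exact hVW₃ h1
  · obtain ⟨z, hz⟩ := hZ.1.1.nonempty
    have hZV : Z ⊆ V := hZ.1.2.1.trans Set.inter_subset_left
    have hZl := eq_line hX hZ.1.1 hZ0 hz
    have hZ2 := hZ.2
    rw [hZl] at hZ2 ⊢
    by_cases hzW : z ∈ W₁
    · exact (line_subset hW₁.1 hzW).trans Set.subset_union_left
    · obtain ⟨B, hB, hzB⟩ := exists_maxBelow_clo hX h𝒮 hd hV hT hVT (hZV hz)
        (hbad z (hZV hz) hzW) hZ2
      have hBo := maxBelow_optimal hB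
      have hBs := optimalH_special hX h𝒮 hT hcT hBo
      have hBd := optimalH_def hX h𝒮 hd hc hcd hBo
      have h3 : B ⊆ W₂ := hat B ⟨hBs, hB.2.2.1⟩
      have h4 : B ⊆ W₃ := hA B hBo.1 hBd.2 h3
      have hl := line_sub hX.cone hX.zero (hV.subset (hZV hz))
      exact (((subset_clo (k := k) hl.subset).trans hzB).trans h4).trans Set.subset_union_right

/-- **Theorem A.** -/
theorem forms_over [Uncountable K] (hX : QuasiProjective X) (h𝒮 : SpecialStructure X 𝒮)
    (hd : ∀ S ∈ 𝒮, Def k S) :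
    List.TFAE [PointsNotDense X 𝒮 h, AtypicalNotDense X 𝒮 h, FinitelyManyMaximal X 𝒮 h,
      FinitelyManyOptimal X 𝒮 h, AtypicalNotDenseOver k X 𝒮 h, FinitelyManyMaximalOver k X 𝒮 h,
      FinitelyManyOptimalOver k X 𝒮 h] := by
  haveI : Infinite K := IsAlgClosed.instInfinite
  have hf := formsH (h := h) hX h𝒮
  tfae_have 1 ↔ 2 := hf.out 0 1
  tfae_have 1 ↔ 3 := hf.out 0 2
  tfae_have 1 ↔ 4 := hf.out 0 3
  tfae_have 4 → 7 := fun ho T hT V hV _ hVT => ho T hT V hV hVT
  tfae_have 7 → 6 := by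
    intro ho T hT V hV hVd hVT
    unfold maxAtypical
    rw [maxSpecial_eq hX.cone h𝒮 hT hVT]
    exact (ho T hT V hV hVd hVT).subset fun A hA => maxBelow_optimal hA
  tfae_have 6 → 5 := by
    intro hm T hT V hV hVd hVT
    have hfin := hm T hT V hV hVd hVT
    unfold maxAtypical at hfin
    rw [maxSpecial_eq hX.cone h𝒮 hT hVT] at hfin
    have hcl : ∀ B ∈ maxBelow X 𝒮 h V (hdefect 𝒮 h V), Closed X B := fun B hB => hB.1.closed
    refine ⟨⋃₀ maxBelow X 𝒮 h V (hdefect 𝒮 h V), closed_sUnion hfin hcl, fun hsub => ?_,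
      fun Z hZ => ?_⟩
    · obtain ⟨B, hB, hVB⟩ := hV.mem_of_sUnion hfin hcl hsub
      have h1 : B = V := Set.Subset.antisymm hB.2.1 hVB
      have h2 := hB.2.2.1
      rw [h1] at h2
      exact lt_irrefl _ h2
    · obtain ⟨B, hB, hZB⟩ := exists_maxBelow (𝒮 := 𝒮) (h := h) hX hZ.1.1
        (hZ.1.2.1.trans Set.inter_subset_left) hZ.2
      exact hZB.trans (Set.subset_sUnion_of_mem hB)
  tfae_have 5 → 1 := points_of_over hX h𝒮 hd
  tfae_finish

end

end Pool.Agent.R781.FD
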