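import Pool.Agent.R781.FD.D

/-!
# Fields of definition: the points which are not rational over `k`
-/

set_option autoImplicit false
set_option linter.unusedSectionVars false
set_option linter.style.haveILetI false

namespace Pool.Agent.R781.FD

open MvPolynomial Pool.Agent.R948 Pool.Agent.R948.ZP Pool.Agent.R370.HS

section Definitions

variable {K : Type} [Field K] {ι : Type} [Fintype ι]

/-- Every subvariety `V` of a special subvariety, such that `V` has the property `Q`, has only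
finitely many optimal subvarieties (with respect to `h`) with the property `P`. -/
def FinOpt (X : Set (ι → K)) (𝒮 : Set (Set (ι → K))) (h : Set (ι → K) → ℤ)
    (Q P : Set (ι → K) → Prop) : Prop :=
  ∀ T ∈ 𝒮, ∀ V, Subvariety X V → V ⊆ T → Q V → {A | OptimalH X 𝒮 h V A ∧ P A}.Finite

end Definitions

section

variable {K : Type} [Field K] [IsAlgClosed K] {ι : Type} [Fintype ι]
  {X : Set (ι → K)} {𝒮 : Set (Set (ι → K))} {h : Set (ι → K) → ℤ}

/-- finitely many optimal points with a property -/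
theorem pointsP_finite [Uncountable K] (hX : QuasiProjective X)
    {P : Set (ι → K) → Prop}
    (hp : ∀ T ∈ 𝒮, ∀ V, Subvariety X V → V ⊆ T → ∃ W, Closed X W ∧ ¬ V ⊆ W ∧
      ∀ z ∈ V, P (line z) → hdefect 𝒮 h (line z) < hdefect 𝒮 h V → z ∈ W) :
    ∀ T ∈ 𝒮, ∀ V, Subvariety X V → V ⊆ T →
      {A | OptimalH X 𝒮 h V A ∧ (dim A = 0 ∧ P A)}.Finite := by
  classical
  haveI : Infinite K := IsAlgClosed.instInfinite
  intro T hT
  suffices H : ∀ n : ℕ, ∀ V, Subvariety X V → V ⊆ T → vd V = n →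
      {A | OptimalH X 𝒮 h V A ∧ (dim A = 0 ∧ P A)}.Finite from fun V hV hVT => H _ V hV hVT rfl
  intro n
  induction n using Nat.strong_induction_on with
  | _ n ih =>
    rintro V hV hVT rfl
    obtain ⟨W, hW, hVW, hWS⟩ := hp T hT V hV hVT
    obtain ⟨𝓕, hf, hs, hu⟩ := exists_decomp X (hV.closed.inter hW)
    have hsub : ∀ U ∈ 𝓕, U ⊆ V ∩ W := by
      intro U hU
      rw [← hu]
      exact Set.subset_sUnion_of_mem hU
    have hlt : ∀ U ∈ 𝓕, vd U < vd V := by
      intro U hU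
      refine vd_strict hX.cone (hs U hU) hV ⟨(hsub U hU).trans Set.inter_subset_left,
        fun h2 => hVW ?_⟩
      exact h2.trans ((hsub U hU).trans Set.inter_subset_right)
    have hfin : (⋃ U ∈ 𝓕, {A | OptimalH X 𝒮 h U A ∧ (dim A = 0 ∧ P A)}).Finite := by
      refine hf.biUnion fun U hU => ?_
      exact ih _ (hlt U hU) U (hs U hU) (((hsub U hU).trans Set.inter_subset_left).trans hVT) rfl
    refine (hfin.union (Set.finite_singleton V)).subset ?_
    rintro p ⟨hpo, hp0, hpP⟩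
    rcases eq_or_ne p V with rfl | hne
    · exact Or.inr rfl
    left
    have hpV : p ⊂ V := Set.ssubset_iff_subset_ne.2 ⟨hpo.2.1, hne⟩
    obtain ⟨z, hz⟩ := hpo.1.nonempty
    have hpl := eq_line hX hpo.1 hp0 hz
    have h2 : z ∈ W := by
      refine hWS z (hpo.2.1 hz) (hpl ▸ hpP) ?_
      rw [← hpl]
      exact hpo.2.2 V hV hpV le_rfl
    have h3 : p ⊆ W := by
      rw [hpl]
      exact line_subset hW.1 h2
    obtain ⟨U, hU, hpU⟩ := hpo.1.mem_of_sUnion hf (fun U hU => (hs U hU).closed)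
      (by rw [hu]; exact Set.subset_inter hpo.2.1 h3)
    exact Set.mem_biUnion hU ⟨hpo.mono hpU ((hsub U hU).trans Set.inter_subset_left), hp0, hpP⟩

/-- the base field can be enlarged -/
theorem def_of_range {k k' : Type} [Field k] [Field k'] [Algebra k K] [Algebra k' K]
    {A : Set (ι → K)} (hA : Def k A)
    (hr : Set.range (algebraMap k K) ⊆ Set.range (algebraMap k' K)) : Def k' A := by
  refine le_antisymm (map_cont_le A) ?_
  have h1 : van A = (cont k A).map (MvPolynomial.map (algebraMap k K)) := hA.symm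
  rw [h1, Ideal.map_le_iff_le_comap]
  intro g hg
  have h2 : MvPolynomial.map (algebraMap k K) g ∈
      Set.range (MvPolynomial.map (σ := ι) (algebraMap k' K)) := by
    rw [mem_range_map_iff_coeffs_subset]
    have h3 : MvPolynomial.map (algebraMap k K) g ∈
        Set.range (MvPolynomial.map (σ := ι) (algebraMap k K)) := ⟨g, rfl⟩
    rw [mem_range_map_iff_coeffs_subset] at h3
    exact h3.trans hr
  obtain ⟨g', hg'⟩ := h2
  change MvPolynomial.map (algebraMap k K) g ∈
    (cont k' A).map (MvPolynomial.map (algebraMap k' K))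
  rw [← hg']
  refine Ideal.mem_map_of_mem _ ?_
  change MvPolynomial.map (algebraMap k' K) g' ∈ van A
  rw [hg']
  exact hg

theorem exists_adapted_over (hX : QuasiProjective X) (h𝒮 : 𝒮.Countable)
    (V : Set (ι → K)) (k : Type) [Field k] [Algebra k K] [Countable k] :
    ∃ (k' : Type) (_ : Field k') (_ : Algebra k' K), IsAlgClosed k' ∧ Countable k' ∧
      Adapted k' X 𝒮 V ∧ Set.range (algebraMap k K) ⊆ Set.range (algebraMap k' K) := by
  obtain ⟨k₁, _, _, hk₁, hk₁c, hk₁a⟩ := exists_adapted hX h𝒮 V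
  obtain ⟨k', _, _, hk', hk'c, hsub⟩ := exists_field
    (Set.range (algebraMap k K) ∪ Set.range (algebraMap k₁ K))
    ((Set.countable_range _).union (Set.countable_range _))
  have hs1 : Set.range (algebraMap k₁ K) ⊆ Set.range (algebraMap k' K) :=
    Set.subset_union_right.trans hsub
  obtain ⟨F, G', hFG⟩ := hk₁a.space
  refine ⟨k', inferInstance, inferInstance, hk', hk'c, ⟨⟨F, {g | ∃ g' ∈ G',
    MvPolynomial.map (algebraMap k' K) g = MvPolynomial.map (algebraMap k₁ K) g'}, ?_⟩,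
    fun S hS => def_of_range (hk₁a.special S hS) hs1, def_of_range hk₁a.var hs1⟩,
    Set.subset_union_left.trans hsub⟩
  have h1 : MvPolynomial.map (algebraMap k' K) '' {g | ∃ g' ∈ G',
      MvPolynomial.map (algebraMap k' K) g = MvPolynomial.map (algebraMap k₁ K) g'} =
      MvPolynomial.map (algebraMap k₁ K) '' G' := by
    ext f
    constructor
    · rintro ⟨g, ⟨g', hg', he⟩, rfl⟩
      exact ⟨g', hg', he.symm⟩
    · rintro ⟨g', hg', rfl⟩
      have h2 : MvPolynomial.map (algebraMap k₁ K) g' ∈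
          Set.range (MvPolynomial.map (σ := ι) (algebraMap k' K)) := by
        rw [mem_range_map_iff_coeffs_subset]
        have h3 : MvPolynomial.map (algebraMap k₁ K) g' ∈
            Set.range (MvPolynomial.map (σ := ι) (algebraMap k₁ K)) := ⟨g', rfl⟩
        rw [mem_range_map_iff_coeffs_subset] at h3
        exact h3.trans hs1
      obtain ⟨g, hg⟩ := h2
      exact ⟨g, ⟨g', hg', hg⟩, hg⟩
  rw [h1]
  exact hFG

/-- a subvariety whose closure over `k` is larger is not defined over `k` -/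
theorem not_def_of_clo {k k' : Type} [Field k] [Field k'] [Algebra k K] [Algebra k' K]
    (hr : Set.range (algebraMap k K) ⊆ Set.range (algebraMap k' K)) {A : Set (ι → K)}
    (hA : Closed X A) (h : ¬ clo k' X A ⊆ A) : ¬ Def k A := fun hd =>
  h (clo_subset hA (def_of_range hd hr) le_rfl)

/-- one hyperplane section, with subvarieties not defined over `k` -/
theorem section_step_over [Uncountable K] (hX : QuasiProjective X) (h𝒮 : SpecialStructure X 𝒮)
    {V : Set (ι → K)} (hV : Subvariety X V) (k : Type) [Field k] [Algebra k K] [Countable k]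
    {Φ : Set (Set (ι → K))} (d : ℤ) (hinf : (optimalCodim X 𝒮 h Φ V d).Infinite)
    (hd : d < dim V) : ∃ V', Subvariety X V' ∧ V' ⊆ V ∧ dim V' = dim V - 1 ∧
      hull 𝒮 V' = hull 𝒮 V ∧ ¬ Def k V' ∧
      {A | A ∈ optimalCodim X 𝒮 h Φ V' d ∧ ¬ Def k A}.Infinite := by
  classical
  haveI : Infinite K := IsAlgClosed.instInfinite
  obtain ⟨k', _, _, hkc', hkn', hk', hr⟩ := exists_adapted_over hX h𝒮.countable V k
  obtain ⟨u, hu⟩ := exists_indep (k := k') (K := K) ι
  -- the components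
  have hYc : Closed X (V ∩ (X ∩ hyp u)) := hV.closed.inter (closed_hyp' hX.cone u)
  have hA1 : ∀ A : (optimalCodim X 𝒮 h Φ V d), ∃ B, IsComponent X B (A.1 ∩ (X ∩ hyp u)) := by
    rintro ⟨A, hA, hAd, -⟩
    have hAc := optimalH_clo hX h𝒮 hV hk' hu hA
    have hAdef : Def k' A := hAc ▸ def_clo (k := k') hX hA.1 hV hk'.var hA.2.1
    refine exists_comp hX h𝒮 hV hk' hu hA.1 hA.2.1 hAdef ?_
    have h1 : 1 ≤ dim A := by omega
    rw [dim_eq] at h1
    change 2 ≤ vd A
    omega
  choose g hg using hA1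
  have hgopt : ∀ A, OptimalH X 𝒮 h (V ∩ (X ∩ hyp u)) (g A) := fun A =>
    optimalH_section hX h𝒮 hV hk' hu A.2.1 (hg A)
  have hfacts : ∀ A : (optimalCodim X 𝒮 h Φ V d), vd (g A) + 1 = vd A.1 ∧
      clo k' X (g A) = A.1 ∧ hull 𝒮 (g A) = hull 𝒮 A.1 := by
    intro A
    have hAc := optimalH_clo hX h𝒮 hV hk' hu A.2.1
    have hAdef : Def k' A.1 := by
      have h1 := def_clo (k := k') hX A.2.1.1 hV hk'.var A.2.1.2.1
      rwa [hAc] at h1
    have h1 := comp_facts hX h𝒮 hV hk' hu A.2.1.1 A.2.1.2.1 hAdef (hg A)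
    exact h1
  have hginj : Function.Injective g := by
    intro A A' hAA'
    apply Subtype.ext
    rw [← (hfacts A).2.1, ← (hfacts A').2.1, hAA']
  have hcov : ∀ A, ∃ V' ∈ {C | IsComponent X C (V ∩ (X ∩ hyp u))}, g A ⊆ V' := by
    intro A
    obtain ⟨V', hV', hgV'⟩ := exists_component hX.cone (hgopt A).1 (hgopt A).2.1
    exact ⟨V', hV', hgV'⟩
  have hone : ∃ V' ∈ {C | IsComponent X C (V ∩ (X ∩ hyp u))}, {A | g A ⊆ V'}.Infinite := by
    by_contra hcon
    push Not at hcon
    have h1 : (⋃ V' ∈ {C | IsComponent X C (V ∩ (X ∩ hyp u))}, {A | g A ⊆ V'}).Finite :=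
      (components_finite hYc).biUnion fun W hW => hcon W hW
    haveI : Infinite (optimalCodim X 𝒮 h Φ V d) := Set.infinite_coe_iff.2 hinf
    refine Set.infinite_univ (α := optimalCodim X 𝒮 h Φ V d) (h1.subset fun A _ => ?_)
    obtain ⟨W, hW, hpW⟩ := hcov A
    exact Set.mem_biUnion hW hpW
  obtain ⟨V', hV', hinf'⟩ := hone
  obtain ⟨hc1, hc2, hc3⟩ := comp_facts hX h𝒮 hV hk' hu hV le_rfl hk'.var hV'
  refine ⟨V', hV'.1, hV'.2.1.trans Set.inter_subset_left, by rw [dim_eq, dim_eq]; omega, hc3,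
    ?_, ?_⟩
  · refine not_def_of_clo hr hV'.1.closed fun hsub => ?_
    rw [hc2] at hsub
    have h1 := vd_mono hX.cone hV hV'.1 hsub
    omega
  refine (hinf'.image (hginj.injOn)).mono ?_
  rintro _ ⟨A, hA, rfl⟩
  refine ⟨⟨(hgopt A).mono hA hV'.2.1, ?_, ?_⟩, ?_⟩
  · have h1 := (hfacts A).1
    have h2 := A.2.2.1
    rw [dim_eq, dim_eq] at h2 ⊢
    omega
  · rw [(hfacts A).2.2]
    exact A.2.2.2
  · refine not_def_of_clo hr (hgopt A).1.closed fun hsub => ?_
    have h1 := (hfacts A).1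
    rw [(hfacts A).2.1] at hsub
    have h2 := vd_mono hX.cone A.2.1.1 (hgopt A).1 hsub
    omega

end

section

variable {k K : Type} [Field k] [Field K] [Algebra k K] [IsAlgClosed k] [IsAlgClosed K]
  {ι : Type} [Fintype ι] {X : Set (ι → K)} {𝒮 : Set (Set (ι → K))} {h : Set (ι → K) → ℤ}

/-- the closure over `k` of a point not defined over `k` has positive dimension -/
theorem two_le_vd_clo (hX : QuasiProjective X) {T : Set (ι → K)} (hT : Subvariety X T)
    (hTd : Def k T) {z : ι → K} (hz : z ∈ T) (hzd : ¬ Def k (line z)) :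
    2 ≤ vd (clo k X (line z)) := by
  haveI : Infinite K := IsAlgClosed.instInfinite
  have hl := line_sub hX.cone hX.zero (hT.subset hz)
  have hlT := line_subset hT.closed.1 hz
  have hc := clo_sub (k := k) hX hl hT hTd hlT
  have hcd := def_clo (k := k) hX hl hT hTd hlT
  have hsub := subset_clo (k := k) hl.subset
  have h1 : line z ≠ clo k X (line z) := fun he => hzd (by rw [he]; exact hcd)
  have h2 := vd_strict hX.cone hl hc (Set.ssubset_iff_subset_ne.2 ⟨hsub, h1⟩)
  rw [vd_line hX.cone hX.zero (hT.subset hz)] at h2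
  omega

/-- finiteness of positive dimensional optimal subvarieties over `k` gives finiteness of optimal
points not defined over `k` -/
theorem nonrational_of_positive [Uncountable K] (hX : QuasiProjective X)
    (h𝒮 : SpecialStructure X 𝒮) (hd : ∀ S ∈ 𝒮, Def k S)
    (hk : FinOpt X 𝒮 h (Def k) (fun A => 1 ≤ dim A)) :
    FinOpt X 𝒮 h (fun _ => True) (fun A => dim A = 0 ∧ ¬ Def k A) := by
  haveI : Infinite K := IsAlgClosed.instInfinite
  intro T₀ hT₀ V₀ hV₀ hVT₀ _
  refine pointsP_finite (P := fun A => ¬ Def k A) hX ?_ T₀ hT₀ V₀ hV₀ hVT₀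
  intro T hT V hV hVT
  have hT' := h𝒮.subvariety T hT
  have hTd := hd T hT
  have hc := clo_sub (k := k) hX hV hT' hTd hVT
  have hcd := def_clo (k := k) hX hV hT' hTd hVT
  have hcT : clo k X V ⊆ T := clo_subset hT'.closed hTd (cont_anti hVT)
  obtain ⟨W₁, hW₁, hVW₁, hbad⟩ := exists_bad_closed (k := k) hX hV hT' hTd hVT
  let 𝓕 : Set (Set (ι → K)) :=
    {B | B ∈ maxBelow X 𝒮 h (clo k X V) (hdefect 𝒮 h (clo k X V)) ∧ 1 ≤ dim B}
  have hfin : 𝓕.Finite := (hk T hT _ hc hcT hcd).subset fun B hB => ⟨maxBelow_optimal hB.1, hB.2⟩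
  have hcl : ∀ B ∈ 𝓕, Closed X B := fun B hB => hB.1.1.closed
  have hW₂ := closed_sUnion hfin hcl
  have hVW₂ : ¬ V ⊆ ⋃₀ 𝓕 := by
    intro hsub
    obtain ⟨B, hB, hVB⟩ := hV.mem_of_sUnion hfin hcl hsub
    have hBd := (optimalH_def hX h𝒮 hd hc hcd (maxBelow_optimal hB.1)).2
    have h1 : clo k X V ⊆ B := clo_subset hB.1.1.closed hBd (cont_anti hVB)
    have h2 : B = clo k X V := Set.Subset.antisymm hB.1.2.1 h1
    have h3 := hB.1.2.2.1
    rw [h2] at h3
    exact lt_irrefl _ h3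
  refine ⟨W₁ ∪ ⋃₀ 𝓕, hW₁.union hW₂, fun hsub => ?_, fun z hz hzd hat => ?_⟩
  · rcases hV.irreducible W₁ _ hW₁ hW₂ hsub with h1 | h1
    · exact hVW₁ h1
    · exact hVW₂ h1
  · by_cases hzW : z ∈ W₁
    · exact Or.inl hzW
    · obtain ⟨B, hB, hzB⟩ := exists_maxBelow_clo hX h𝒮 hd hV hT hVT hz (hbad z hz hzW) hat
      have hl := line_sub hX.cone hX.zero (hV.subset hz)
      have hlT := (line_subset hV.closed.1 hz).trans hVT
      have h1 := two_le_vd_clo hX hT' hTd (hVT hz) hzd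
      have h2 := vd_mono hX.cone (clo_sub (k := k) hX hl hT' hTd hlT) hB.1 hzB
      refine Or.inr ⟨B, ⟨hB, ?_⟩, hzB (subset_clo (k := k) hl.subset (mem_line z))⟩
      rw [dim_eq]
      omega

/-- finiteness of optimal points defined over `k` -/
theorem rational_of_rational [Uncountable K] (hX : QuasiProjective X)
    (h𝒮 : SpecialStructure X 𝒮) (hd : ∀ S ∈ 𝒮, Def k S)
    (hk : FinOpt X 𝒮 h (Def k) (fun A => dim A = 0)) :
    FinOpt X 𝒮 h (fun _ => True) (fun A => dim A = 0 ∧ Def k A) := by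
  haveI : Infinite K := IsAlgClosed.instInfinite
  intro T hT
  suffices H : ∀ n : ℕ, ∀ V, Subvariety X V → V ⊆ T → vd V = n →
      {A | OptimalH X 𝒮 h V A ∧ (dim A = 0 ∧ Def k A)}.Finite from
    fun V hV hVT _ => H _ V hV hVT rfl
  intro n
  induction n using Nat.strong_induction_on with
  | _ n ih =>
    rintro V hV hVT rfl
    have hT' := h𝒮.subvariety T hT
    have hTd := hd T hT
    have hc := clo_sub (k := k) hX hV hT' hTd hVT
    have hcd := def_clo (k := k) hX hV hT' hTd hVT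
    by_cases hVd : Def k V
    · exact (hk T hT V hV hVT hVd).subset fun A hA => ⟨hA.1, hA.2.1⟩
    have hlt' : vd V < vd (clo k X V) := by
      refine vd_strict hX.cone hV hc (Set.ssubset_iff_subset_ne.2 ⟨subset_clo hV.subset, ?_⟩)
      intro he
      exact hVd (by rw [he]; exact hcd)
    obtain ⟨W, hW, hVW, hbad⟩ := exists_bad_closed (k := k) hX hV hT' hTd hVT
    obtain ⟨𝓕, hf, hs, hu⟩ := exists_decomp X (hV.closed.inter hW)
    have hsub : ∀ U ∈ 𝓕, U ⊆ V ∩ W := by
      intro U hU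
      rw [← hu]
      exact Set.subset_sUnion_of_mem hU
    have hlt : ∀ U ∈ 𝓕, vd U < vd V := by
      intro U hU
      refine vd_strict hX.cone (hs U hU) hV ⟨(hsub U hU).trans Set.inter_subset_left,
        fun h2 => hVW ?_⟩
      exact h2.trans ((hsub U hU).trans Set.inter_subset_right)
    have hfin : (⋃ U ∈ 𝓕, {A | OptimalH X 𝒮 h U A ∧ (dim A = 0 ∧ Def k A)}).Finite := by
      refine hf.biUnion fun U hU => ?_
      exact ih _ (hlt U hU) U (hs U hU) (((hsub U hU).trans Set.inter_subset_left).trans hVT) rfl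
    refine hfin.subset ?_
    rintro p ⟨hpo, hp0, hpd⟩
    obtain ⟨z, hz⟩ := hpo.1.nonempty
    have hpl := eq_line hX hpo.1 hp0 hz
    have h2 : z ∈ W := by
      by_contra hzW
      have h3 := hbad z (hpo.2.1 hz) hzW
      rw [← hpl] at h3
      have h4 := vd_mono hX.cone (clo_sub (k := k) hX hpo.1 hT' hTd (hpo.2.1.trans hVT)) hpo.1
        (clo_subset hpo.1.closed hpd le_rfl)
      rw [dim_eq] at hp0
      omega
    have h3 : p ⊆ W := by
      rw [hpl]
      exact line_subset hW.1 h2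
    obtain ⟨U, hU, hpU⟩ := hpo.1.mem_of_sUnion hf (fun U hU => (hs U hU).closed)
      (by rw [hu]; exact Set.subset_inter hpo.2.1 h3)
    exact Set.mem_biUnion hU ⟨hpo.mono hpU ((hsub U hU).trans Set.inter_subset_left), hp0, hpd⟩

/-- infinitely many optimal subvarieties of positive dimension give infinitely many optimal points
not defined over `k` on a subvariety -/
theorem exists_nonrational [Uncountable K] [Countable k] (hX : QuasiProjective X)
    (h𝒮 : SpecialStructure X 𝒮) {Φ : Set (Set (ι → K))} (d : ℤ) :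
    ∀ n : ℕ, ∀ V, Subvariety X V → (vd V : ℤ) = d + 1 + (n + 1) →
      (optimalCodim X 𝒮 h Φ V d).Infinite →
      ∃ V', Subvariety X V' ∧ V' ⊆ V ∧ dim V' = d ∧ hull 𝒮 V' = hull 𝒮 V ∧ ¬ Def k V' ∧
        {A | A ∈ optimalCodim X 𝒮 h Φ V' d ∧ ¬ Def k A}.Infinite := by
  intro n
  induction n with
  | zero =>
    intro V hV hn hinf
    obtain ⟨V', h1, h2, h3, h4, h5, h6⟩ := section_step_over hX h𝒮 hV k d hinf
      (by rw [dim_eq]; push_cast at hn; omega)
    exact ⟨V', h1, h2, by rw [h3, dim_eq]; push_cast at hn; omega, h4, h5, h6⟩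
  | succ n ih =>
    intro V hV hn hinf
    obtain ⟨V', h1, h2, h3, h4, h5, h6⟩ := section_step_over hX h𝒮 hV k d hinf
      (by rw [dim_eq]; push_cast at hn; omega)
    obtain ⟨V'', g1, g2, g3, g4, g5, g6⟩ := ih V' h1
      (by rw [dim_eq, dim_eq] at h3; push_cast at hn ⊢; omega)
      (h6.mono fun A hA => hA.1)
    exact ⟨V'', g1, g2.trans h2, g3, g4.trans h4, g5, g6⟩

theorem positive_of_nonrational [Uncountable K] [Countable k] (hX : QuasiProjective X)
    (h𝒮 : SpecialStructure X 𝒮)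
    (hn : FinOpt X 𝒮 h (fun V => ¬ Def k V) (fun A => dim A = 0 ∧ ¬ Def k A)) :
    FinOpt X 𝒮 h (fun _ => True) (fun A => 1 ≤ dim A) := by
  classical
  haveI : Infinite K := IsAlgClosed.instInfinite
  intro T hT V hV hVT _
  have h1 : {A | OptimalH X 𝒮 h V A ∧ 1 ≤ dim A} ⊆
      ⋃ d ∈ Set.Icc (0 : ℤ) (dim V - 1), optimalCodim X 𝒮 h Set.univ V d := by
    rintro A ⟨hA, hA1⟩
    have h2 := vd_mono hX.cone hA.1 hV hA.2.1
    refine Set.mem_biUnion (x := dim V - dim A) ⟨?_, ?_⟩ ⟨hA, rfl, trivial⟩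
    · rw [dim_eq, dim_eq]
      omega
    · omega
  refine ((Set.finite_Icc _ _).biUnion fun d hd => ?_).subset h1
  by_contra hinf
  obtain ⟨n, hn'⟩ : ∃ n : ℕ, (n : ℤ) = dim V - d - 1 :=
    ⟨(dim V - d - 1).toNat, Int.toNat_of_nonneg (by have := hd.2; omega)⟩
  obtain ⟨V', g1, g2, g3, -, g5, g6⟩ := exists_nonrational (k := k) hX h𝒮 d n V hV
    (by rw [dim_eq] at hn'; omega) hinf
  refine g6 ((hn T hT V' g1 (g2.trans hVT) g5).subset ?_)
  rintro A ⟨⟨hA, hAd, -⟩, hAk⟩
  exact ⟨hA, by omega, hAk⟩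

/-- **Theorem B.** -/
theorem positive_tfae [Uncountable K] [Countable k] (hX : QuasiProjective X)
    (h𝒮 : SpecialStructure X 𝒮) (hd : ∀ S ∈ 𝒮, Def k S) :
    List.TFAE [FinOpt X 𝒮 h (Def k) (fun A => 1 ≤ dim A),
      FinOpt X 𝒮 h (fun _ => True) (fun A => 1 ≤ dim A),
      FinOpt X 𝒮 h (fun _ => True) (fun A => ¬ Def k A),
      FinOpt X 𝒮 h (fun V => ¬ Def k V) (fun A => dim A = 0 ∧ ¬ Def k A)] := by
  haveI : Infinite K := IsAlgClosed.instInfinite
  tfae_have 2 → 1 := fun h2 T hT V hV hVT _ => h2 T hT V hV hVT trivial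
  tfae_have 4 → 2 := positive_of_nonrational hX h𝒮
  tfae_have 3 → 4 := fun h3 T hT V hV hVT _ =>
    (h3 T hT V hV hVT trivial).subset fun A hA => ⟨hA.1, hA.2.2⟩
  tfae_have 1 → 3 := by
    intro h1
    have h2 := nonrational_of_positive hX h𝒮 hd h1
    have h3 := positive_of_nonrational (k := k) hX h𝒮
      (fun T hT V hV hVT _ => h2 T hT V hV hVT trivial)
    intro T hT V hV hVT _
    refine ((h2 T hT V hV hVT trivial).union (h3 T hT V hV hVT trivial)).subset ?_
    rintro A ⟨hA, hAd⟩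
    have h4 := one_le_vd hX hA.1
    by_cases h5 : dim A = 0
    · exact Or.inl ⟨hA, h5, hAd⟩
    · refine Or.inr ⟨hA, ?_⟩
      change 1 ≤ dim A
      rw [dim_eq] at h5 ⊢
      omega
  tfae_finish

theorem rational_iff [Uncountable K] (hX : QuasiProjective X)
    (h𝒮 : SpecialStructure X 𝒮) (hd : ∀ S ∈ 𝒮, Def k S) :
    FinOpt X 𝒮 h (fun _ => True) (fun A => dim A = 0 ∧ Def k A) ↔
      FinOpt X 𝒮 h (Def k) (fun A => dim A = 0) := by
  refine ⟨fun h1 T hT V hV hVT hVd => ?_, rational_of_rational hX h𝒮 hd⟩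
  exact (h1 T hT V hV hVT trivial).subset fun A hA =>
    ⟨hA.1, hA.2, (optimalH_def hX h𝒮 hd hV hVd hA.1).2⟩

end

end Pool.Agent.R781.FD
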