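import Pool.Agent.R781.FD.E
import Pool.Agent.R948.ZGc

/-!
# Pink's question and transcendental points
-/

set_option autoImplicit false
set_option linter.unusedSectionVars false
set_option linter.style.haveILetI false

namespace Pool.Agent.R781.FD

open MvPolynomial Pool.Agent.R948 Pool.Agent.R948.ZP Pool.Agent.R370.HS

section Definitions

variable {K : Type} [Field K] {ι : Type} [Fintype ι]

/-- Pink's question over `k`: for a subvariety `Z`, defined over `k`, of a special subvariety, if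
the points `x` of `Z` defined over `k` with `δ(x) ≤ d` are Zariski dense in `Z`, then
`δ(Z) ≤ d`. -/
def RationalDefectForm (k : Type) [Field k] [Algebra k K] (X : Set (ι → K))
    (𝒮 : Set (Set (ι → K))) : Prop :=
  ∀ T ∈ 𝒮, ∀ Z, Subvariety X Z → Z ⊆ T → Def k Z → ∀ d : ℤ,
    (∀ W, Closed X W → (∀ x ∈ Z, Def k (line x) → defect 𝒮 (line x) ≤ d → x ∈ W) → Z ⊆ W) →
      defect 𝒮 Z ≤ d

/-- Pink's question over `k` for subvarieties of positive dimension: for a subvariety `Z`, defined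
over `k`, of a special subvariety, if the subvarieties `A` of `Z` defined over `k`, of positive
dimension and with `δ(A) ≤ d`, are Zariski dense in `Z`, then `δ(Z) ≤ d`. -/
def PositiveDefectForm (k : Type) [Field k] [Algebra k K] (X : Set (ι → K))
    (𝒮 : Set (Set (ι → K))) : Prop :=
  ∀ T ∈ 𝒮, ∀ Z, Subvariety X Z → Z ⊆ T → Def k Z → ∀ d : ℤ,
    (∀ W, Closed X W → (∀ A, Subvariety X A → A ⊆ Z → Def k A → 1 ≤ dim A →
      defect 𝒮 A ≤ d → A ⊆ W) → Z ⊆ W) → defect 𝒮 Z ≤ d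

/-- Pink's question for points which are not defined over `k`: for a subvariety `Z` of a special
subvariety, if the points `x` of `Z` which are not defined over `k` and have `δ(x) ≤ d` are Zariski
dense in `Z`, then `δ(Z) ≤ d`. -/
def TranscendentalDefectForm (k : Type) [Field k] [Algebra k K] (X : Set (ι → K))
    (𝒮 : Set (Set (ι → K))) : Prop :=
  ∀ T ∈ 𝒮, ∀ Z, Subvariety X Z → Z ⊆ T → ∀ d : ℤ,
    (∀ W, Closed X W → (∀ x ∈ Z, ¬ Def k (line x) → defect 𝒮 (line x) ≤ d → x ∈ W) → Z ⊆ W) →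
      defect 𝒮 Z ≤ d

/-- The same, only for subvarieties `Z` which are not defined over `k`. -/
def TranscendentalDefectForm' (k : Type) [Field k] [Algebra k K] (X : Set (ι → K))
    (𝒮 : Set (Set (ι → K))) : Prop :=
  ∀ T ∈ 𝒮, ∀ Z, Subvariety X Z → Z ⊆ T → ¬ Def k Z → ∀ d : ℤ,
    (∀ W, Closed X W → (∀ x ∈ Z, ¬ Def k (line x) → defect 𝒮 (line x) ≤ d → x ∈ W) → Z ⊆ W) →
      defect 𝒮 Z ≤ d

end Definitions

section

variable {K : Type} [Field K] [IsAlgClosed K] {ι : Type} [Fintype ι]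
  {X : Set (ι → K)} {𝒮 : Set (Set (ι → K))} {h : Set (ι → K) → ℤ}

/-- induction on the dimension -/
theorem optP_finite [Uncountable K] (hX : QuasiProjective X) {P : Set (ι → K) → Prop}
    (hp : ∀ T ∈ 𝒮, ∀ V, Subvariety X V → V ⊆ T → ∃ W, Closed X W ∧ ¬ V ⊆ W ∧
      ∀ A, OptimalH X 𝒮 h V A → P A → A ≠ V → A ⊆ W) :
    FinOpt X 𝒮 h (fun _ => True) P := by
  classical
  haveI : Infinite K := IsAlgClosed.instInfinite
  intro T hT
  suffices H : ∀ n : ℕ, ∀ V, Subvariety X V → V ⊆ T → vd V = n →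
      {A | OptimalH X 𝒮 h V A ∧ P A}.Finite from fun V hV hVT _ => H _ V hV hVT rfl
  intro n
  induction n using Nat.strong_induction_on with
  | _ n ih =>
    rintro V hV hVT rfl
    obtain ⟨W, hW, hVW, hWS⟩ := hp T hT V hV hVT
    obtain ⟨𝓕, hf, hs, hu⟩ := exists_decomp X (hV.closed.inter hW)
    have hsub : ∀ U ∈ 𝓕, U ⊆ V ∩ W := by
      intro U hU
      rw [← hu]
      exact Set.subset_sUnion_of_mem hU
    have hlt : ∀ U ∈ 𝓕, vd U < vd V := by
      intro U hU
      refine vd_strict hX.cone (hs U hU) hV ⟨(hsub U hU).trans Set.inter_subset_left,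
        fun h2 => hVW ?_⟩
      exact h2.trans ((hsub U hU).trans Set.inter_subset_right)
    have hfin : (⋃ U ∈ 𝓕, {A | OptimalH X 𝒮 h U A ∧ P A}).Finite := by
      refine hf.biUnion fun U hU => ?_
      exact ih _ (hlt U hU) U (hs U hU) (((hsub U hU).trans Set.inter_subset_left).trans hVT) rfl
    refine (hfin.union (Set.finite_singleton V)).subset ?_
    rintro p ⟨hpo, hpP⟩
    rcases eq_or_ne p V with rfl | hne
    · exact Or.inr rfl
    left
    have h3 : p ⊆ W := hWS p hpo hpP hne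
    obtain ⟨U, hU, hpU⟩ := hpo.1.mem_of_sUnion hf (fun U hU => (hs U hU).closed)
      (by rw [hu]; exact Set.subset_inter hpo.2.1 h3)
    exact Set.mem_biUnion hU ⟨hpo.mono hpU ((hsub U hU).trans Set.inter_subset_left), hpP⟩

theorem OptimalH.lt {V A : Set (ι → K)} (hV : Subvariety X V) (hA : OptimalH X 𝒮 h V A)
    (hne : A ≠ V) : hdefect 𝒮 h A < hdefect 𝒮 h V :=
  hA.2.2 V hV (Set.ssubset_iff_subset_ne.2 ⟨hA.2.1, hne⟩) le_rfl

/-- finiteness gives the statement on the defect -/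
theorem defect_le_of_dense [Uncountable K] (hX : QuasiProjective X) {Z : Set (ι → K)}
    (hZ : Subvariety X Z) {P : Set (ι → K) → Prop}
    (hfin : {A | OptimalH X 𝒮 dim Z A ∧ P A}.Finite) {d : ℤ} (𝒜 : Set (Set (ι → K)))
    (h𝒜 : ∀ A ∈ 𝒜, Subvariety X A ∧ A ⊆ Z ∧ defect 𝒮 A ≤ d)
    (hP : ∀ A ∈ 𝒜, ∀ B, OptimalH X 𝒮 dim Z B → A ⊆ B → P B)
    (hdense : ∀ W, Closed X W → (∀ A ∈ 𝒜, A ⊆ W) → Z ⊆ W) : defect 𝒮 Z ≤ d := by
  haveI : Infinite K := IsAlgClosed.instInfinite
  let 𝓕 : Set (Set (ι → K)) := {B | (OptimalH X 𝒮 dim Z B ∧ P B) ∧ defect 𝒮 B ≤ d}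
  have hf : 𝓕.Finite := hfin.subset fun B hB => hB.1
  have hcl : ∀ B ∈ 𝓕, Closed X B := fun B hB => hB.1.1.1.closed
  have h1 : Z ⊆ ⋃₀ 𝓕 := by
    refine hdense _ (closed_sUnion hf hcl) fun A hA => ?_
    obtain ⟨hA1, hA2, hA3⟩ := h𝒜 A hA
    obtain ⟨B, hB, hAB, hBd⟩ := exists_optimalH (𝒮 := 𝒮) (h := dim) hX hA1 hA2
    exact hAB.trans (Set.subset_sUnion_of_mem ⟨⟨hB, hP A hA B hB hAB⟩, hBd.trans hA3⟩)
  obtain ⟨B, hB, hZB⟩ := hZ.mem_of_sUnion hf hcl h1
  have h2 : B = Z := Set.Subset.antisymm hB.1.1.2.1 hZB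
  rw [← h2]
  exact hB.2

theorem optimal_iff_H {V A : Set (ι → K)} : Optimal X 𝒮 V A ↔ OptimalH X 𝒮 dim V A := by
  unfold Optimal OptimalH
  refine and_congr_right fun _ => and_congr_right fun _ => ?_
  refine forall_congr' fun B => ?_
  refine forall_congr' fun _ => forall_congr' fun _ => forall_congr' fun _ => ?_
  exact not_le

end

section

variable {k K : Type} [Field k] [Field K] [Algebra k K] [IsAlgClosed k] [IsAlgClosed K]
  {ι : Type} [Fintype ι] {X : Set (ι → K)} {𝒮 : Set (Set (ι → K))} {h : Set (ι → K) → ℤ}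

/-- the subvarieties of `V` over `k` are not dense, if `V` is not defined over `k` -/
theorem exists_closed_of_not_def (hX : QuasiProjective X) {V T : Set (ι → K)}
    (hV : Subvariety X V) (hT : Subvariety X T) (hTd : Def k T) (hVT : V ⊆ T)
    (hVd : ¬ Def k V) :
    ∃ W, Closed X W ∧ ¬ V ⊆ W ∧ ∀ A, Subvariety X A → A ⊆ V → Def k A → A ⊆ W := by
  haveI : Infinite K := IsAlgClosed.instInfinite
  obtain ⟨W, hW, hVW, hbad⟩ := exists_bad_sub (k := k) hX hV hT hTd hVT
  refine ⟨W, hW, hVW, fun A hA hAV hAd => ?_⟩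
  by_contra hcon
  have h1 := hbad A hA hAV hcon
  have h2 := vd_mono hX.cone (clo_sub (k := k) hX hA hT hTd (hAV.trans hVT)) hA
    (clo_subset hA.closed hAd le_rfl)
  have h3 : vd V < vd (clo k X V) := by
    refine vd_strict hX.cone hV (clo_sub (k := k) hX hV hT hTd hVT)
      (Set.ssubset_iff_subset_ne.2 ⟨subset_clo hV.subset, ?_⟩)
    intro he
    exact hVd (by rw [he]; exact def_clo hX hV hT hTd hVT)
  omega

theorem finOpt_of_rational [Uncountable K] (hX : QuasiProjective X)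
    (h𝒮 : SpecialStructure X 𝒮) (hd : ∀ S ∈ 𝒮, Def k S) (hr : RationalDefectForm k X 𝒮) :
    FinOpt X 𝒮 dim (fun _ => True) (fun A => dim A = 0 ∧ Def k A) := by
  haveI : Infinite K := IsAlgClosed.instInfinite
  refine optP_finite hX fun T hT V hV hVT => ?_
  by_cases hVd : Def k V
  · by_contra hcon
    push Not at hcon
    have h1 := hr T hT V hV hVT hVd (defect 𝒮 V - 1) fun W hW hWx => by
      by_contra hVW
      obtain ⟨A, hA, hAP, hne, hAW⟩ := hcon W hW hVW
      obtain ⟨z, hz⟩ := hA.1.nonempty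
      have hAl := eq_line hX hA.1 hAP.1 hz
      have h2 := OptimalH.lt hV hA hne
      have h3 : defect 𝒮 (line z) < defect 𝒮 V := by
        rw [← hAl]
        exact h2
      have h4 := hWx z (hA.2.1 hz) (by rw [← hAl]; exact hAP.2) (by omega)
      apply hAW
      rw [hAl]
      exact line_subset hW.1 h4
    omega
  · obtain ⟨W, hW, hVW, hA⟩ := exists_closed_of_not_def hX hV (h𝒮.subvariety T hT) (hd T hT)
      hVT hVd
    exact ⟨W, hW, hVW, fun A hAo hAP _ => hA A hAo.1 hAo.2.1 hAP.2⟩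

theorem finOpt_of_positive [Uncountable K] (hX : QuasiProjective X)
    (h𝒮 : SpecialStructure X 𝒮) (hd : ∀ S ∈ 𝒮, Def k S) (hr : PositiveDefectForm k X 𝒮) :
    FinOpt X 𝒮 dim (fun _ => True) (fun A => 1 ≤ dim A ∧ Def k A) := by
  haveI : Infinite K := IsAlgClosed.instInfinite
  refine optP_finite hX fun T hT V hV hVT => ?_
  by_cases hVd : Def k V
  · by_contra hcon
    push Not at hcon
    have h1 := hr T hT V hV hVT hVd (defect 𝒮 V - 1) fun W hW hWx => by
      by_contra hVW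
      obtain ⟨A, hA, hAP, hne, hAW⟩ := hcon W hW hVW
      have h2 : defect 𝒮 A < defect 𝒮 V := OptimalH.lt hV hA hne
      exact hAW (hWx A hA.1 hA.2.1 hAP.2 hAP.1 (by omega))
    omega
  · obtain ⟨W, hW, hVW, hA⟩ := exists_closed_of_not_def hX hV (h𝒮.subvariety T hT) (hd T hT)
      hVT hVd
    exact ⟨W, hW, hVW, fun A hAo hAP _ => hA A hAo.1 hAo.2.1 hAP.2⟩

theorem finOpt_of_transcendental [Uncountable K] (hX : QuasiProjective X)
    (h𝒮 : SpecialStructure X 𝒮) (hd : ∀ S ∈ 𝒮, Def k S)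
    (hr : TranscendentalDefectForm' k X 𝒮) :
    FinOpt X 𝒮 dim (fun _ => True) (fun A => dim A = 0 ∧ ¬ Def k A) := by
  haveI : Infinite K := IsAlgClosed.instInfinite
  refine optP_finite hX fun T hT V hV hVT => ?_
  by_cases hVd : Def k V
  · refine ⟨∅, closed_empty X, fun hsub => ?_, fun A hA hAP _ => ?_⟩
    · obtain ⟨x, hx⟩ := hV.nonempty
      exact (hsub hx).elim
    · exact absurd (optimalH_def hX h𝒮 hd hV hVd hA).2 hAP.2
  · by_contra hcon
    push Not at hcon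
    have h1 := hr T hT V hV hVT hVd (defect 𝒮 V - 1) fun W hW hWx => by
      by_contra hVW
      obtain ⟨A, hA, hAP, hne, hAW⟩ := hcon W hW hVW
      obtain ⟨z, hz⟩ := hA.1.nonempty
      have hAl := eq_line hX hA.1 hAP.1 hz
      have h2 := OptimalH.lt hV hA hne
      have h3 : defect 𝒮 (line z) < defect 𝒮 V := by
        rw [← hAl]
        exact h2
      have h4 := hWx z (hA.2.1 hz) (by rw [← hAl]; exact hAP.2) (by omega)
      apply hAW
      rw [hAl]
      exact line_subset hW.1 h4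
    omega

theorem defect_forms_iff [Uncountable K] (hX : QuasiProjective X)
    (h𝒮 : SpecialStructure X 𝒮) (hd : ∀ S ∈ 𝒮, Def k S) :
    DefectForm X 𝒮 ↔ RationalDefectForm k X 𝒮 ∧ PositiveDefectForm k X 𝒮 := by
  haveI : Infinite K := IsAlgClosed.instInfinite
  constructor
  · intro hD
    have ho : OptimalForm X 𝒮 := optimal_of_point hX h𝒮
      (point_of_pink hX.cone h𝒮 (pink_of_defect hX h𝒮 hD))
    have hfin : ∀ T ∈ 𝒮, ∀ V, Subvariety X V → V ⊆ T →
        {A | OptimalH X 𝒮 dim V A ∧ True}.Finite := by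
      intro T hT V hV hVT
      refine (ho T hT V hV hVT).subset fun A hA => ?_
      exact optimal_iff_H.2 hA.1
    refine ⟨fun T hT Z hZ hZT hZd d hdense => ?_, fun T hT Z hZ hZT hZd d hdense => ?_⟩
    · refine defect_le_of_dense hX hZ (hfin T hT Z hZ hZT)
        {A | ∃ x ∈ Z, Def k (line x) ∧ defect 𝒮 (line x) ≤ d ∧ A = line x} ?_
        (fun _ _ _ _ _ => trivial) fun W hW hWA => hdense W hW fun x hx h1 h2 =>
          hWA (line x) ⟨x, hx, h1, h2, rfl⟩ (mem_line x)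
      rintro _ ⟨x, hx, h1, h2, rfl⟩
      exact ⟨line_sub hX.cone hX.zero (hZ.subset hx), line_subset hZ.closed.1 hx, h2⟩
    · refine defect_le_of_dense hX hZ (hfin T hT Z hZ hZT)
        {A | Subvariety X A ∧ A ⊆ Z ∧ Def k A ∧ 1 ≤ dim A ∧ defect 𝒮 A ≤ d} ?_
        (fun _ _ _ _ _ => trivial) fun W hW hWA => hdense W hW fun A h1 h2 h3 h4 h5 =>
          hWA A ⟨h1, h2, h3, h4, h5⟩
      rintro A ⟨h1, h2, -, -, h5⟩
      exact ⟨h1, h2, h5⟩
  · rintro ⟨hr, hp⟩
    have h1 := finOpt_of_rational (k := k) hX h𝒮 hd hr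
    have h2 := finOpt_of_positive (k := k) hX h𝒮 hd hp
    have h3 : FinitelyManyOptimalOver k X 𝒮 dim := by
      intro T hT V hV hVd hVT
      refine ((h1 T hT V hV hVT trivial).union (h2 T hT V hV hVT trivial)).subset ?_
      intro A hA
      have hAd := (optimalH_def hX h𝒮 hd hV hVd hA).2
      have h4 := one_le_vd hX hA.1
      by_cases h5 : dim A = 0
      · exact Or.inl ⟨hA, h5, hAd⟩
      · refine Or.inr ⟨hA, ?_, hAd⟩
        rw [dim_eq] at h5 ⊢
        omega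
    have h4 : FinitelyManyOptimal X 𝒮 dim := ((forms_over (h := dim) hX h𝒮 hd).out 3 6).2 h3
    refine defect_of_optimal hX h𝒮 fun T hT V hV hVT => ?_
    exact (h4 T hT V hV hVT).subset fun A hA => optimal_iff_H.1 hA

theorem transcendental_tfae [Uncountable K] [Countable k] (hX : QuasiProjective X)
    (h𝒮 : SpecialStructure X 𝒮) (hd : ∀ S ∈ 𝒮, Def k S) :
    List.TFAE [PositiveDefectForm k X 𝒮, TranscendentalDefectForm k X 𝒮,
      TranscendentalDefectForm' k X 𝒮, FinOpt X 𝒮 dim (fun _ => True) (fun A => 1 ≤ dim A)] := by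
  haveI : Infinite K := IsAlgClosed.instInfinite
  have hB := positive_tfae (h := dim) hX h𝒮 hd
  tfae_have 1 → 4 := by
    intro hp
    refine (hB.out 0 1).1 fun T hT V hV hVT hVd => ?_
    refine (finOpt_of_positive (k := k) hX h𝒮 hd hp T hT V hV hVT trivial).subset ?_
    rintro A ⟨hA, hA1⟩
    exact ⟨hA, hA1, (optimalH_def hX h𝒮 hd hV hVd hA).2⟩
  tfae_have 4 → 2 := by
    intro h4 T hT Z hZ hZT d hdense
    have h3 : FinOpt X 𝒮 dim (fun _ => True) (fun A => ¬ Def k A) := (hB.out 1 2).1 h4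
    have hfin : {A | OptimalH X 𝒮 dim Z A ∧ (1 ≤ dim A ∨ ¬ Def k A)}.Finite := by
      refine ((h4 T hT Z hZ hZT trivial).union (h3 T hT Z hZ hZT trivial)).subset ?_
      rintro A ⟨hA, hA1 | hA1⟩
      · exact Or.inl ⟨hA, hA1⟩
      · exact Or.inr ⟨hA, hA1⟩
    refine defect_le_of_dense hX hZ hfin
      {A | ∃ x ∈ Z, ¬ Def k (line x) ∧ defect 𝒮 (line x) ≤ d ∧ A = line x} ?_ ?_
      fun W hW hWA => hdense W hW fun x hx h1 h2 =>
        hWA (line x) ⟨x, hx, h1, h2, rfl⟩ (mem_line x)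
    · rintro _ ⟨x, hx, h1, h2, rfl⟩
      exact ⟨line_sub hX.cone hX.zero (hZ.subset hx), line_subset hZ.closed.1 hx, h2⟩
    · rintro _ ⟨x, hx, h1, h2, rfl⟩ B hBo hxB
      by_cases h5 : dim B = 0
      · refine Or.inr ?_
        rw [eq_line hX hBo.1 h5 (hxB (mem_line x))]
        exact h1
      · refine Or.inl ?_
        have h6 := one_le_vd hX hBo.1
        rw [dim_eq] at h5 ⊢
        omega
  tfae_have 2 → 3 := fun h2 T hT Z hZ hZT _ => h2 T hT Z hZ hZT
  tfae_have 3 → 4 := by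
    intro h3
    refine (hB.out 3 1).1 fun T hT V hV hVT _ => ?_
    exact finOpt_of_transcendental (k := k) hX h𝒮 hd h3 T hT V hV hVT trivial
  tfae_have 4 → 1 := by
    intro h4 T hT Z hZ hZT hZd d hdense
    refine defect_le_of_dense hX hZ (h4 T hT Z hZ hZT trivial)
        {A | Subvariety X A ∧ A ⊆ Z ∧ Def k A ∧ 1 ≤ dim A ∧ defect 𝒮 A ≤ d} ?_ ?_
        fun W hW hWA => hdense W hW fun A h1 h2 h3 h4 h5 => hWA A ⟨h1, h2, h3, h4, h5⟩
    · rintro A ⟨h1, h2, -, -, h5⟩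
      exact ⟨h1, h2, h5⟩
    · rintro A ⟨h1, h2, -, h4, -⟩ B hBo hAB
      have h6 := vd_mono hX.cone h1 hBo.1 hAB
      change 1 ≤ dim B
      rw [dim_eq] at h4 ⊢
      omega
  tfae_finish

end

end Pool.Agent.R781.FD
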