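import Pool.Agent.R781.FD.F

/-!
# Maximal atypical subvarieties and fields of definition
-/

set_option autoImplicit false
set_option linter.unusedSectionVars false
set_option linter.style.haveILetI false

namespace Pool.Agent.R781.FD

open MvPolynomial Pool.Agent.R948 Pool.Agent.R948.ZP Pool.Agent.R370.HS

section Definitions

variable {K : Type} [Field K] {ι : Type} [Fintype ι]

/-- `A` is a maximal atypical subvariety of `V` in `T`. -/
def MaxAtyp (X : Set (ι → K)) (𝒮 : Set (Set (ι → K))) (T V A : Set (ι → K)) : Prop :=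
  Atypical X 𝒮 T V A ∧ ∀ B, Atypical X 𝒮 T V B → A ⊆ B → B = A

/-- For every special `T` every subvariety `V` of `T` with the property `Q` has only finitely many
maximal atypical subvarieties in `T` with the property `P`. -/
def FinMax (X : Set (ι → K)) (𝒮 : Set (Set (ι → K))) (Q P : Set (ι → K) → Prop) : Prop :=
  ∀ T ∈ 𝒮, ∀ V, Subvariety X V → V ⊆ T → Q V → {A | MaxAtyp X 𝒮 T V A ∧ P A}.Finite

end Definitions

section

variable {K : Type} [Field K] [IsAlgClosed K] {ι : Type} [Fintype ι]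
  {X : Set (ι → K)} {𝒮 : Set (Set (ι → K))} {h : Set (ι → K) → ℤ}

theorem isComponent_self {V Z : Set (ι → K)} (hV : Subvariety X V) (hVZ : V ⊆ Z) :
    IsComponent X V (V ∩ Z) :=
  ⟨hV, Set.subset_inter le_rfl hVZ, fun _ _ hVD hDV =>
    Set.Subset.antisymm (hDV.trans Set.inter_subset_left) hVD⟩

/-- a subvariety in a smaller special subvariety is atypical -/
theorem atypical_self (hX : QuasiProjective X) (h𝒮 : SpecialStructure X 𝒮) {T V : Set (ι → K)}
    (hT : T ∈ 𝒮) (hV : Subvariety X V) (hVT : V ⊆ T) (hne : hull 𝒮 V ≠ T) :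
    Atypical X 𝒮 T V V := by
  haveI : Infinite K := IsAlgClosed.instInfinite
  have hh := hull_mem hX.cone h𝒮 hV hT hVT
  refine ⟨hull 𝒮 V, hh, hull_subset hT hVT, isComponent_self hV (subset_hull V), ?_⟩
  have h1 := vd_strict hX.cone (h𝒮.subvariety _ hh) (h𝒮.subvariety _ hT)
    (Set.ssubset_iff_subset_ne.2 ⟨hull_subset hT hVT, hne⟩)
  rw [dim_eq, dim_eq, dim_eq]
  omega

theorem not_atypical_self {T V : Set (ι → K)} (hVT : hull 𝒮 V = T) :
    ¬ Atypical X 𝒮 T V V := by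
  rintro ⟨Z, hZ, hZT, hVZ, hd⟩
  have h1 : hull 𝒮 V ⊆ Z := hull_subset hZ (hVZ.2.1.trans Set.inter_subset_right)
  have h2 : Z = T := Set.Subset.antisymm hZT (by rw [← hVT]; exact h1)
  rw [h2] at hd
  omega

theorem Atypical.sub {T V A : Set (ι → K)} (hA : Atypical X 𝒮 T V A) :
    Subvariety X A ∧ A ⊆ V := by
  obtain ⟨Z, -, -, hZ, -⟩ := hA
  exact ⟨hZ.1, hZ.2.1.trans Set.inter_subset_left⟩

theorem exists_maxAtyp (hX : QuasiProjective X) {T V A : Set (ι → K)}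
    (hA : Atypical X 𝒮 T V A) : ∃ B, MaxAtyp X 𝒮 T V B ∧ A ⊆ B := by
  haveI : Infinite K := IsAlgClosed.instInfinite
  obtain ⟨B, hB, hAB, hBat, hmax⟩ := exists_maximal hX.cone
    (fun B => Atypical X 𝒮 T V B) (Atypical.sub hA).1 hA
  exact ⟨B, ⟨hBat, fun C hC hBC => hmax C (Atypical.sub hC).1 hBC hC⟩, hAB⟩

/-- maximal atypical subvarieties are optimal -/
theorem MaxAtyp.optimal (hX : QuasiProjective X) (h𝒮 : SpecialStructure X 𝒮) {T V A : Set (ι → K)}
    (hT : T ∈ 𝒮) (hVT : V ⊆ T) (hA : MaxAtyp X 𝒮 T V A) : OptimalH X 𝒮 dim V A := by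
  haveI : Infinite K := IsAlgClosed.instInfinite
  obtain ⟨hA1, hA2⟩ := hA
  obtain ⟨hs, hAV⟩ := Atypical.sub hA1
  obtain ⟨B, hB, hAB, hBd⟩ := exists_optimal (𝒮 := 𝒮) hX.cone hs hAV
  obtain ⟨Z, hZ, hZT, hZA⟩ := hA1
  have h1 := defect_le_of_component hX.cone h𝒮 hZ hZA
  have h2 := optimal_atypical hX.cone h𝒮 hT hVT hB (hBd.trans_lt h1)
  have h3 := hA2 B h2 hAB
  rw [← h3]
  exact optimal_iff_H.1 hB

theorem finMax_of_finOpt (hX : QuasiProjective X) (h𝒮 : SpecialStructure X 𝒮)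
    {Q P : Set (ι → K) → Prop} (h : FinOpt X 𝒮 dim Q P) : FinMax X 𝒮 Q P := by
  intro T hT V hV hVT hQ
  exact (h T hT V hV hVT hQ).subset fun A hA => ⟨MaxAtyp.optimal hX h𝒮 hT hVT hA.1, hA.2⟩

/-- the maximal atypical subvarieties with the property `P` give a proper closed subset -/
theorem closed_of_finMax (hX : QuasiProjective X) (h𝒮 : SpecialStructure X 𝒮)
    {T V : Set (ι → K)} (hT : T ∈ 𝒮) (hV : Subvariety X V) (hVT : V ⊆ T)
    {P : Set (ι → K) → Prop} (h : {A | MaxAtyp X 𝒮 (hull 𝒮 V) V A ∧ P A}.Finite) :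
    ∃ W, Closed X W ∧ ¬ V ⊆ W ∧ ∀ A, OptimalH X 𝒮 dim V A → A ≠ V →
      ∃ B, MaxAtyp X 𝒮 (hull 𝒮 V) V B ∧ A ⊆ B ∧ (P B → A ⊆ W) := by
  haveI : Infinite K := IsAlgClosed.instInfinite
  have hh := hull_mem hX.cone h𝒮 hV hT hVT
  have hcl : ∀ B ∈ {A | MaxAtyp X 𝒮 (hull 𝒮 V) V A ∧ P A}, Closed X B :=
    fun B hB => (Atypical.sub hB.1.1).1.closed
  refine ⟨⋃₀ {A | MaxAtyp X 𝒮 (hull 𝒮 V) V A ∧ P A}, closed_sUnion h hcl, fun hsub => ?_,
    fun A hA hne => ?_⟩
  · obtain ⟨B, hB, hVB⟩ := hV.mem_of_sUnion h hcl hsub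
    have h2 : B = V := Set.Subset.antisymm (Atypical.sub hB.1.1).2 hVB
    have h3 := hB.1.1
    rw [h2] at h3
    exact not_atypical_self rfl h3
  · have h1 := OptimalH.lt hV hA hne
    have h2 := optimal_atypical hX.cone h𝒮 hh (subset_hull V) (optimal_iff_H.2 hA) h1
    obtain ⟨B, hB, hAB⟩ := exists_maxAtyp hX h2
    exact ⟨B, hB, hAB, fun hPB => hAB.trans (Set.subset_sUnion_of_mem ⟨hB, hPB⟩)⟩

end

section

variable {k K : Type} [Field k] [Field K] [Algebra k K] [IsAlgClosed k] [IsAlgClosed K]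
  {ι : Type} [Fintype ι] {X : Set (ι → K)} {𝒮 : Set (Set (ι → K))} {h : Set (ι → K) → ℤ}

theorem finOpt_of_finMax_over [Uncountable K] (hX : QuasiProjective X)
    (h𝒮 : SpecialStructure X 𝒮) (hd : ∀ S ∈ 𝒮, Def k S) {n : ℤ}
    (hm : FinMax X 𝒮 (Def k) (fun A => n ≤ dim A)) :
    FinOpt X 𝒮 dim (fun _ => True) (fun A => n ≤ dim A ∧ Def k A) := by
  haveI : Infinite K := IsAlgClosed.instInfinite
  refine optP_finite hX fun T hT V hV hVT => ?_
  by_cases hVd : Def k V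
  · have hh := hull_mem hX.cone h𝒮 hV hT hVT
    obtain ⟨W, hW, hVW, hA⟩ := closed_of_finMax hX h𝒮 hT hV hVT
      (hm _ hh V hV (subset_hull V) hVd)
    refine ⟨W, hW, hVW, fun A hAo hAP hne => ?_⟩
    obtain ⟨B, hB, hAB, hBW⟩ := hA A hAo hne
    refine hBW ?_
    have h1 := vd_mono hX.cone hAo.1 (Atypical.sub hB.1).1 hAB
    have h2 := hAP.1
    rw [dim_eq] at h2 ⊢
    omega
  · obtain ⟨W, hW, hVW, hA⟩ := exists_closed_of_not_def hX hV (h𝒮.subvariety T hT) (hd T hT)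
      hVT hVd
    exact ⟨W, hW, hVW, fun A hAo hAP _ => hA A hAo.1 hAo.2.1 hAP.2⟩

theorem finOpt_of_finMax_not_over [Uncountable K] (hX : QuasiProjective X)
    (h𝒮 : SpecialStructure X 𝒮) (hd : ∀ S ∈ 𝒮, Def k S)
    (hm : FinMax X 𝒮 (fun V => ¬ Def k V) (fun A => ¬ Def k A)) :
    FinOpt X 𝒮 dim (fun _ => True) (fun A => dim A = 0 ∧ ¬ Def k A) := by
  haveI : Infinite K := IsAlgClosed.instInfinite
  refine optP_finite hX fun T hT V hV hVT => ?_
  by_cases hVd : Def k V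
  · refine ⟨∅, closed_empty X, fun hsub => ?_, fun A hA hAP _ => ?_⟩
    · obtain ⟨x, hx⟩ := hV.nonempty
      exact (hsub hx).elim
    · exact absurd (optimalH_def hX h𝒮 hd hV hVd hA).2 hAP.2
  · have hh := hull_mem hX.cone h𝒮 hV hT hVT
    obtain ⟨W, hW, hVW, hA⟩ := closed_of_finMax hX h𝒮 hT hV hVT
      (hm _ hh V hV (subset_hull V) hVd)
    obtain ⟨W', hW', hVW', hA'⟩ := exists_closed_of_not_def hX hV (h𝒮.subvariety T hT) (hd T hT)
      hVT hVd
    refine ⟨W ∪ W', hW.union hW', fun hsub => ?_, fun A hAo hAP hne => ?_⟩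
    · rcases hV.irreducible W W' hW hW' hsub with h1 | h1
      · exact hVW h1
      · exact hVW' h1
    · obtain ⟨B, hB, hAB, hBW⟩ := hA A hAo hne
      by_cases hBd : Def k B
      · exact (hAB.trans (hA' B (Atypical.sub hB.1).1 (Atypical.sub hB.1).2 hBd)).trans
          Set.subset_union_right
      · exact (hBW hBd).trans Set.subset_union_left

/-- Q1 over `K` and over `k` -/
theorem finMax_iff [Uncountable K] (hX : QuasiProjective X)
    (h𝒮 : SpecialStructure X 𝒮) (hd : ∀ S ∈ 𝒮, Def k S) :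
    FinMax X 𝒮 (fun _ => True) (fun _ => True) ↔ FinMax X 𝒮 (Def k) (fun _ => True) := by
  haveI : Infinite K := IsAlgClosed.instInfinite
  refine ⟨fun hm T hT V hV hVT _ => hm T hT V hV hVT trivial, fun hm => ?_⟩
  have h1 : FinMax X 𝒮 (Def k) (fun A => 0 ≤ dim A) := fun T hT V hV hVT hVd =>
    (hm T hT V hV hVT hVd).subset fun A hA => ⟨hA.1, trivial⟩
  have h2 := finOpt_of_finMax_over hX h𝒮 hd h1
  have h3 : FinitelyManyOptimalOver k X 𝒮 dim := by
    intro T hT V hV hVd hVT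
    refine (h2 T hT V hV hVT trivial).subset fun A hA => ⟨hA, ?_,
      (optimalH_def hX h𝒮 hd hV hVd hA).2⟩
    have h4 := one_le_vd hX hA.1
    rw [dim_eq]
    omega
  have h4 : FinitelyManyOptimal X 𝒮 dim := ((forms_over (h := dim) hX h𝒮 hd).out 3 6).2 h3
  exact finMax_of_finOpt hX h𝒮 fun T hT V hV hVT _ =>
    (h4 T hT V hV hVT).subset fun A hA => hA.1

/-- the geometric part -/
theorem finMax_tfae [Uncountable K] [Countable k] (hX : QuasiProjective X)
    (h𝒮 : SpecialStructure X 𝒮) (hd : ∀ S ∈ 𝒮, Def k S) :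
    List.TFAE [FinMax X 𝒮 (Def k) (fun A => 1 ≤ dim A),
      FinMax X 𝒮 (fun _ => True) (fun A => 1 ≤ dim A),
      FinMax X 𝒮 (fun _ => True) (fun A => ¬ Def k A),
      FinMax X 𝒮 (fun V => ¬ Def k V) (fun A => ¬ Def k A)] := by
  haveI : Infinite K := IsAlgClosed.instInfinite
  have hB := positive_tfae (h := dim) hX h𝒮 hd
  tfae_have 2 → 1 := fun h2 T hT V hV hVT _ => h2 T hT V hV hVT trivial
  tfae_have 3 → 4 := fun h3 T hT V hV hVT _ => h3 T hT V hV hVT trivial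
  have h1a : FinMax X 𝒮 (Def k) (fun A => 1 ≤ dim A) →
      FinOpt X 𝒮 dim (fun _ => True) (fun A => 1 ≤ dim A) := by
    intro h1
    refine (hB.out 0 1).1 fun T hT V hV hVT hVd => ?_
    refine (finOpt_of_finMax_over hX h𝒮 hd h1 T hT V hV hVT trivial).subset ?_
    rintro A ⟨hA, hA1⟩
    exact ⟨hA, hA1, (optimalH_def hX h𝒮 hd hV hVd hA).2⟩
  tfae_have 1 → 2 := fun h1 => finMax_of_finOpt hX h𝒮 (h1a h1)
  tfae_have 1 → 3 := fun h1 => finMax_of_finOpt hX h𝒮 ((hB.out 1 2).1 (h1a h1))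
  tfae_have 4 → 1 := by
    intro h4
    have h5 := finOpt_of_finMax_not_over hX h𝒮 hd h4
    exact finMax_of_finOpt hX h𝒮 ((hB.out 3 0).1 fun T hT V hV hVT _ =>
      h5 T hT V hV hVT trivial)
  tfae_finish

theorem clo_dim (hX : QuasiProjective X) {T V : Set (ι → K)} (hT : Subvariety X T)
    (hTd : Def k T) (hV : Subvariety X V) (hVT : V ⊆ T) :
    dim V ≤ dim (clo k X V) ∧ (dim (clo k X V) = dim V ↔ Def k V) := by
  haveI : Infinite K := IsAlgClosed.instInfinite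
  have hc := clo_sub (k := k) hX hV hT hTd hVT
  have hsub := subset_clo (k := k) hV.subset
  have h1 := vd_mono hX.cone hV hc hsub
  refine ⟨by rw [dim_eq, dim_eq]; omega, fun he => ?_, fun hVd => ?_⟩
  · rw [dim_eq, dim_eq] at he
    have h2 : V = clo k X V := eq_of_vd hX.cone hV hc hsub (by omega)
    rw [h2]
    exact def_clo hX hV hT hTd hVT
  · have h2 : clo k X V = V := Set.Subset.antisymm (clo_subset hV.closed hVd le_rfl) hsub
    rw [h2]

/-- **The gap.** -/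
theorem gap_theorem (hX : QuasiProjective X) (h𝒮 : SpecialStructure X 𝒮)
    (hd : ∀ S ∈ 𝒮, Def k S) {T V : Set (ι → K)} (hT : T ∈ 𝒮) (hV : Subvariety X V)
    (hVT : V ⊆ T) :
    ∃ W, Closed X W ∧ ¬ V ⊆ W ∧
      (∀ S ∈ 𝒮, ∀ A, Subvariety X A → A ⊆ V ∩ S → ¬ A ⊆ W →
        dim A + (dim (clo k X V) - dim V) ≤ dim S ∧
        (dim A + (dim (clo k X V) - dim V) = dim S → S ⊆ clo k X V)) ∧
      (clo k X V = T → ∀ A, Atypical X 𝒮 T V A → A ⊆ W) := by
  haveI : Infinite K := IsAlgClosed.instInfinite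
  have hT' := h𝒮.subvariety T hT
  have hTd := hd T hT
  obtain ⟨W, hW, hVW, hbad⟩ := exists_bad_sub (k := k) hX hV hT' hTd hVT
  have key : ∀ S ∈ 𝒮, ∀ A, Subvariety X A → A ⊆ V ∩ S → ¬ A ⊆ W →
        dim A + (dim (clo k X V) - dim V) ≤ dim S ∧
        (dim A + (dim (clo k X V) - dim V) = dim S → S ⊆ clo k X V) := by
    intro S hS A hA hAVS hAW
    have hAV : A ⊆ V := hAVS.trans Set.inter_subset_left
    have hAS : A ⊆ S := hAVS.trans Set.inter_subset_right
    have hS' := h𝒮.subvariety S hS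
    have h1 := hbad A hA hAV hAW
    have hcA := clo_sub (k := k) hX hA hS' (hd S hS) hAS
    have hcS : clo k X A ⊆ S := clo_subset hS'.closed (hd S hS) (cont_anti hAS)
    have h2 := vd_mono hX.cone hcA hS' hcS
    refine ⟨by rw [dim_eq, dim_eq, dim_eq, dim_eq]; omega, fun he => ?_⟩
    rw [dim_eq, dim_eq, dim_eq, dim_eq] at he
    have h3 : clo k X A = S := eq_of_vd hX.cone hcA hS' hcS (by omega)
    rw [← h3]
    exact clo_subset (clo_closed hX.cone hV.closed.1) (def_clo hX hV hT' hTd hVT)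
      (cont_anti (hAV.trans (subset_clo hV.subset)))
  refine ⟨W, hW, hVW, key, fun hcV A hA => ?_⟩
  by_contra hcon
  obtain ⟨Z, hZ, hZT, hZA, hd'⟩ := hA
  have h1 := (key Z hZ A hZA.1 hZA.2.1 hcon).1
  rw [hcV] at h1
  omega

end

end Pool.Agent.R781.FD
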