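import Pool.Agent.R781.FD.F

/-!
# Maximal atypical special subvarieties, general Hodge dimension, and fields of definition
-/

set_option autoImplicit false
set_option linter.unusedSectionVars false
set_option linter.style.haveILetI false

namespace Pool.Agent.R781.FD

open MvPolynomial Pool.Agent.R948 Pool.Agent.R948.ZP Pool.Agent.R370.HS

section Definitions

variable {K : Type} [Field K] {ι : Type} [Fintype ι]

/-- Every subvariety `V` (of a special subvariety) with the property `Q` has only finitely many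
maximal atypical special subvarieties with the property `P`. -/
def FinMaxH (X : Set (ι → K)) (𝒮 : Set (Set (ι → K))) (h : Set (ι → K) → ℤ)
    (Q P : Set (ι → K) → Prop) : Prop :=
  ∀ T ∈ 𝒮, ∀ V, Subvariety X V → V ⊆ T → Q V → {A | A ∈ maxAtypical X 𝒮 h V ∧ P A}.Finite

/-- The question with singular loci, for subvarieties `V` and closed sets `E` defined over `k`: the
special subvarieties of `V` which are atypical or contained in `E` are contained in finitely many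
of them. -/
def WithSingularLocusOver (k : Type) [Field k] [Algebra k K] (X : Set (ι → K))
    (𝒮 : Set (Set (ι → K))) (h : Set (ι → K) → ℤ) : Prop :=
  ∀ T ∈ 𝒮, ∀ V, Subvariety X V → Def k V → V ⊆ T → ∀ E₀, Closed X E₀ → Def k E₀ →
    ∃ 𝓕 : Set (Set (ι → K)), 𝓕.Finite ∧
      (∀ Z ∈ 𝓕, SpecialIn X 𝒮 V Z ∧ (hdefect 𝒮 h Z < hdefect 𝒮 h V ∨ Z ⊆ E₀)) ∧
      ∀ Z, SpecialIn X 𝒮 V Z → (hdefect 𝒮 h Z < hdefect 𝒮 h V ∨ Z ⊆ E₀) → ∃ Z' ∈ 𝓕, Z ⊆ Z'

end Definitions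

section

variable {K : Type} [Field K] [IsAlgClosed K] {ι : Type} [Fintype ι]
  {X : Set (ι → K)} {𝒮 : Set (Set (ι → K))} {h : Set (ι → K) → ℤ}

theorem finMaxH_of_finOpt [Uncountable K] (hX : QuasiProjective X) (h𝒮 : SpecialStructure X 𝒮)
    {Q P : Set (ι → K) → Prop} (ho : FinOpt X 𝒮 h Q P) : FinMaxH X 𝒮 h Q P := by
  haveI : Infinite K := IsAlgClosed.instInfinite
  intro T hT V hV hVT hQ
  unfold maxAtypical
  rw [maxSpecial_eq hX.cone h𝒮 hT hVT]
  exact (ho T hT V hV hVT hQ).subset fun A hA => ⟨maxBelow_optimal hA.1, hA.2⟩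

/-- the maximal atypical subvarieties with the property `P` give a proper closed subset -/
theorem closed_of_finMaxH [Uncountable K] (hX : QuasiProjective X) (h𝒮 : SpecialStructure X 𝒮)
    {T V : Set (ι → K)} (hT : T ∈ 𝒮) (hV : Subvariety X V) (hVT : V ⊆ T)
    {P : Set (ι → K) → Prop} (hf : {A | A ∈ maxAtypical X 𝒮 h V ∧ P A}.Finite) :
    ∃ W, Closed X W ∧ ¬ V ⊆ W ∧ ∀ A, OptimalH X 𝒮 h V A → A ≠ V →
      ∃ B, Subvariety X B ∧ B ⊆ V ∧ A ⊆ B ∧ (P B → A ⊆ W) := by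
  haveI : Infinite K := IsAlgClosed.instInfinite
  unfold maxAtypical at hf
  rw [maxSpecial_eq hX.cone h𝒮 hT hVT] at hf
  have hcl : ∀ B ∈ {A | A ∈ maxBelow X 𝒮 h V (hdefect 𝒮 h V) ∧ P A}, Closed X B :=
    fun B hB => hB.1.1.closed
  refine ⟨⋃₀ {A | A ∈ maxBelow X 𝒮 h V (hdefect 𝒮 h V) ∧ P A}, closed_sUnion hf hcl,
    fun hsub => ?_, fun A hA hne => ?_⟩
  · obtain ⟨B, hB, hVB⟩ := hV.mem_of_sUnion hf hcl hsub
    have h2 : B = V := Set.Subset.antisymm hB.1.2.1 hVB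
    have h3 := hB.1.2.2.1
    rw [h2] at h3
    exact lt_irrefl _ h3
  · obtain ⟨B, hB, hAB⟩ := exists_maxBelow (𝒮 := 𝒮) (h := h) hX hA.1 hA.2.1
      (OptimalH.lt hV hA hne)
    exact ⟨B, hB.1, hB.2.1, hAB, fun hPB => hAB.trans (Set.subset_sUnion_of_mem ⟨hB, hPB⟩)⟩

end

section

variable {k K : Type} [Field k] [Field K] [Algebra k K] [IsAlgClosed k] [IsAlgClosed K]
  {ι : Type} [Fintype ι] {X : Set (ι → K)} {𝒮 : Set (Set (ι → K))} {h : Set (ι → K) → ℤ}

theorem finOptH_of_finMaxH [Uncountable K] (hX : QuasiProjective X)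
    (h𝒮 : SpecialStructure X 𝒮) (hd : ∀ S ∈ 𝒮, Def k S)
    (hm : FinMaxH X 𝒮 h (Def k) (fun A => 1 ≤ dim A)) :
    FinOpt X 𝒮 h (fun _ => True) (fun A => 1 ≤ dim A ∧ Def k A) := by
  haveI : Infinite K := IsAlgClosed.instInfinite
  refine optP_finite hX fun T hT V hV hVT => ?_
  by_cases hVd : Def k V
  · obtain ⟨W, hW, hVW, hA⟩ := closed_of_finMaxH hX h𝒮 hT hV hVT (hm T hT V hV hVT hVd)
    refine ⟨W, hW, hVW, fun A hAo hAP hne => ?_⟩
    obtain ⟨B, hB, hBV, hAB, hBW⟩ := hA A hAo hne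
    refine hBW ?_
    have h1 := vd_mono hX.cone hAo.1 hB hAB
    have h2 := hAP.1
    rw [dim_eq] at h2 ⊢
    omega
  · obtain ⟨W, hW, hVW, hA⟩ := exists_closed_of_not_def hX hV (h𝒮.subvariety T hT) (hd T hT)
      hVT hVd
    exact ⟨W, hW, hVW, fun A hAo hAP _ => hA A hAo.1 hAo.2.1 hAP.2⟩

theorem finOptH_of_finMaxH_not [Uncountable K] (hX : QuasiProjective X)
    (h𝒮 : SpecialStructure X 𝒮) (hd : ∀ S ∈ 𝒮, Def k S)
    (hm : FinMaxH X 𝒮 h (fun V => ¬ Def k V) (fun A => ¬ Def k A)) :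
    FinOpt X 𝒮 h (fun _ => True) (fun A => dim A = 0 ∧ ¬ Def k A) := by
  haveI : Infinite K := IsAlgClosed.instInfinite
  refine optP_finite hX fun T hT V hV hVT => ?_
  by_cases hVd : Def k V
  · refine ⟨∅, closed_empty X, fun hsub => ?_, fun A hA hAP _ => ?_⟩
    · obtain ⟨x, hx⟩ := hV.nonempty
      exact (hsub hx).elim
    · exact absurd (optimalH_def hX h𝒮 hd hV hVd hA).2 hAP.2
  · obtain ⟨W, hW, hVW, hA⟩ := closed_of_finMaxH hX h𝒮 hT hV hVT (hm T hT V hV hVT hVd)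
    obtain ⟨W', hW', hVW', hA'⟩ := exists_closed_of_not_def hX hV (h𝒮.subvariety T hT) (hd T hT)
      hVT hVd
    refine ⟨W ∪ W', hW.union hW', fun hsub => ?_, fun A hAo hAP hne => ?_⟩
    · rcases hV.irreducible W W' hW hW' hsub with h1 | h1
      · exact hVW h1
      · exact hVW' h1
    · obtain ⟨B, hB, hBV, hAB, hBW⟩ := hA A hAo hne
      by_cases hBd : Def k B
      · exact (hAB.trans (hA' B hB hBV hBd)).trans Set.subset_union_right
      · exact (hBW hBd).trans Set.subset_union_left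

/-- **the geometric part**, maximal atypical special subvarieties -/
theorem finMaxH_tfae [Uncountable K] [Countable k] (hX : QuasiProjective X)
    (h𝒮 : SpecialStructure X 𝒮) (hd : ∀ S ∈ 𝒮, Def k S) :
    List.TFAE [FinMaxH X 𝒮 h (Def k) (fun A => 1 ≤ dim A),
      FinMaxH X 𝒮 h (fun _ => True) (fun A => 1 ≤ dim A),
      FinMaxH X 𝒮 h (fun _ => True) (fun A => ¬ Def k A),
      FinMaxH X 𝒮 h (fun V => ¬ Def k V) (fun A => ¬ Def k A),
      FinOpt X 𝒮 h (fun V => ¬ Def k V) (fun A => dim A = 0 ∧ ¬ Def k A)] := by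
  haveI : Infinite K := IsAlgClosed.instInfinite
  have hB := positive_tfae (h := h) hX h𝒮 hd
  tfae_have 2 → 1 := fun h2 T hT V hV hVT _ => h2 T hT V hV hVT trivial
  tfae_have 3 → 4 := fun h3 T hT V hV hVT _ => h3 T hT V hV hVT trivial
  have h1a : FinMaxH X 𝒮 h (Def k) (fun A => 1 ≤ dim A) →
      FinOpt X 𝒮 h (fun _ => True) (fun A => 1 ≤ dim A) := by
    intro h1
    refine (hB.out 0 1).1 fun T hT V hV hVT hVd => ?_
    refine (finOptH_of_finMaxH hX h𝒮 hd h1 T hT V hV hVT trivial).subset ?_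
    rintro A ⟨hA, hA1⟩
    exact ⟨hA, hA1, (optimalH_def hX h𝒮 hd hV hVd hA).2⟩
  tfae_have 1 → 2 := fun h1 => finMaxH_of_finOpt hX h𝒮 (h1a h1)
  tfae_have 1 → 3 := fun h1 => finMaxH_of_finOpt hX h𝒮 ((hB.out 1 2).1 (h1a h1))
  tfae_have 4 → 5 := by
    intro h4 T hT V hV hVT _
    exact finOptH_of_finMaxH_not hX h𝒮 hd h4 T hT V hV hVT trivial
  tfae_have 5 → 1 := fun h5 => finMaxH_of_finOpt hX h𝒮 ((hB.out 3 0).1 h5)
  tfae_finish

/-- with singular loci -/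
theorem singular_over_iff [Uncountable K] (hX : QuasiProjective X)
    (h𝒮 : SpecialStructure X 𝒮) (hd : ∀ S ∈ 𝒮, Def k S) (hdi : DimIneq X 𝒮 h) :
    WithSingularLocus X 𝒮 h ↔ WithSingularLocusOver k X 𝒮 h := by
  haveI : Infinite K := IsAlgClosed.instInfinite
  refine ⟨fun hs T hT V hV _ hVT E₀ hE _ => hs T hT V hV hVT E₀ hE, fun hs => ?_⟩
  rw [← singular_iff hX h𝒮 hdi]
  refine ((forms_over (k := k) (h := h) hX h𝒮 hd).out 5 2).1 ?_
  intro T hT V hV hVd hVT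
  have hE : Def k (∅ : Set (ι → K)) := by
    have h1 : van (∅ : Set (ι → K)) = ⊤ := by
      rw [Ideal.eq_top_iff_one]
      intro x hx
      exact hx.elim
    unfold Def cont
    rw [h1, Ideal.comap_top, Ideal.map_top]
  obtain ⟨𝓕, hf, hf1, hf2⟩ := hs T hT V hV hVd hVT ∅ (closed_empty X) hE
  refine hf.subset fun Z hZ => ?_
  obtain ⟨Z', hZ', hsub⟩ := hf2 Z hZ.1 (Or.inl hZ.2.1)
  have h1 : hdefect 𝒮 h Z' < hdefect 𝒮 h V := by
    refine (hf1 Z' hZ').2.resolve_right fun h2 => ?_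
    obtain ⟨x, hx⟩ := (hf1 Z' hZ').1.1.nonempty
    exact (h2 hx).elim
  rw [← hZ.2.2 Z' (hf1 Z' hZ').1 hsub h1]
  exact hZ'

end

end Pool.Agent.R781.FD
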